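import Pool.Agent.Helper53.Pq.Main
import Pool.Agent.Helper28.NO.Vol
import Pool.Agent.Helper88.NO.D4
import Pool.Agent.Helper88.NO.D12

/-!
# From the abstract theorem to volumes
-/

namespace Pool.Agent.Helper53.Pq

open MeasureTheory Set
open Pool.Agent.Helper28.NO (Lf Ok IsLaw ph hm mu muZ Lf_scale ok_scale exists_isLaw_prod mix
  Lf_cos_cos ok_cos_cos integrable_max_abs ph_zero ph_abs ph_neg isLaw_ph Bp_compact Bp_pos
  proj_finite)
open Pool.Agent.Helper7.Proj (Zd Bp projVol)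

/-- basic facts on `mu q` for all `q > 2`. -/
lemma mu_basic {q : ℝ} (hq : 2 < q) : IsProbabilityMeasure (mu q) ∧ (∀ᵐ y ∂(mu q), 0 < y) ∧
    Integrable (fun y : ℝ => y) (mu q) ∧ ∫ y, y ∂(mu q) = 1 := by
  obtain ⟨hZ, hprob, hpos, hint, hmean, _⟩ := Pool.Agent.Helper88.NO.goalD1 q hq
  have hq0 : 0 < q := by linarith
  have hs0 : 0 < q * Zd q := by positivity
  refine ⟨?_, ?_, ?_, ?_⟩
  · exact Measure.isProbabilityMeasure_map (by fun_prop)
  · unfold mu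
    refine (ae_map_iff (f := fun z => q * Zd q * z) (μ := muZ q) (by fun_prop)
      (measurableSet_Ioi : MeasurableSet {y : ℝ | 0 < y})).2 ?_
    filter_upwards [hpos] with z hz
    positivity
  · unfold mu
    rw [integrable_map_measure (by fun_prop) (by fun_prop)]
    exact hint.const_mul _
  · unfold mu
    rw [integral_map (by fun_prop) (by fun_prop), integral_const_mul, hmean]
    exact mul_one_div_cancel hs0.ne'

lemma max_eq_gen {q : ℝ} (hq : 2 < q) {a b : ℝ} (ha : 0 ≤ a) (hb : 0 ≤ b) :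
    ∫ p : ℝ × ℝ, max (a * p.1) (b * p.2) ∂((mu q).prod (mu q)) = (a ^ q + b ^ q) ^ (1 / q) := by
  obtain ⟨hZ, hprob, hpos, hint, hmean, _⟩ := Pool.Agent.Helper88.NO.goalD1 q hq
  have hq0 : 0 < q := by linarith
  set s : ℝ := q * Zd q with hs
  have hs0 : 0 < s := by positivity
  rw [Pool.Agent.Helper88.NO.int_mu q _ (by fun_prop)]
  have e1 : ∀ p : ℝ × ℝ, max (a * (s * p.1)) (b * (s * p.2)) =
      max ((a * s) * p.1) ((b * s) * p.2) := by
    intro p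
    rw [← mul_assoc a s p.1, ← mul_assoc b s p.2]
  show ∫ p : ℝ × ℝ, max (a * (s * p.1)) (b * (s * p.2)) ∂((muZ q).prod (muZ q)) = _
  simp_rw [e1]
  rw [Pool.Agent.Helper88.NO.goalD2 q hq (a * s) (b * s) (by positivity) (by positivity), ← hs,
    Real.mul_rpow ha hs0.le, Real.mul_rpow hb hs0.le, ← add_mul,
    Real.mul_rpow (add_nonneg (Real.rpow_nonneg ha _) (Real.rpow_nonneg hb _))
      (Real.rpow_nonneg hs0.le _), ← Real.rpow_mul hs0.le, mul_one_div_cancel hq0.ne',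
    Real.rpow_one, mul_div_assoc, div_self hs0.ne', mul_one]

lemma Lf_two_gen {q : ℝ} (hq : 2 < q) {a b : ℝ} (ha : 0 ≤ a) (hb : 0 ≤ b) :
    Lf (fun t => ph (mu q) (a * t) * ph (mu q) (b * t)) = (a ^ q + b ^ q) ^ (1 / q) := by
  obtain ⟨hprob, hpos, hint, hmean⟩ := mu_basic hq
  set μ := mu q with hμ
  have i1 : Integrable (fun p : ℝ × ℝ => |a * p.1|) (μ.prod μ) :=
    ((hint.comp_fst μ).const_mul a).abs
  have i2 : Integrable (fun p : ℝ × ℝ => |b * p.2|) (μ.prod μ) :=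
    ((hint.comp_snd μ).const_mul b).abs
  have i3 : Integrable (fun p : ℝ × ℝ => max |a * p.1| |b * p.2|) (μ.prod μ) := i1.sup i2
  have hm := mix (μ.prod μ) (fun p t => Real.cos (a * p.1 * t) * Real.cos (b * p.2 * t))
    (by unfold Function.uncurry; fun_prop) (fun p => ok_cos_cos _ _) (by
      refine i3.congr (Filter.Eventually.of_forall fun p => ?_)
      exact (Lf_cos_cos _ _).symm)
  have e : (fun t => ph μ (a * t) * ph μ (b * t)) =
      fun t => ∫ p : ℝ × ℝ, Real.cos (a * p.1 * t) * Real.cos (b * p.2 * t) ∂(μ.prod μ) := by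
    ext t
    rw [ph, ph, ← integral_prod_mul]
    refine MeasureTheory.integral_congr_ae (Filter.Eventually.of_forall fun p => ?_)
    simp only
    ring_nf
  rw [e, hm.2, ← max_eq_gen hq ha hb]
  have h1 : ∀ᵐ p : ℝ × ℝ ∂(μ.prod μ), 0 < p.1 :=
    (Measure.quasiMeasurePreserving_fst (μ := μ) (ν := μ)).ae hpos
  have h2 : ∀ᵐ p : ℝ × ℝ ∂(μ.prod μ), 0 < p.2 :=
    (Measure.quasiMeasurePreserving_snd (μ := μ) (ν := μ)).ae hpos
  refine MeasureTheory.integral_congr_ae ?_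
  filter_upwards [h1, h2] with p hp1 hp2
  rw [Lf_cos_cos, abs_of_nonneg (by positivity), abs_of_nonneg (by positivity)]

/-- the value at the critical directions. -/
lemma Lf_crit {q : ℝ} (hq : 2 < q) {ι : Type} [Fintype ι] [DecidableEq ι] (u : ι → ℝ) {i j : ι}
    (hij : i ≠ j) (hi : |u i| = 1 / √2) (hj : |u j| = 1 / √2) (h1 : ∑ k, u k ^ 2 = 1) :
    Lf (fun t => ∏ k, ph (mu q) (u k * t)) = (2 : ℝ) ^ (1 / q - 1 / 2) := by
  obtain ⟨hprob, hpos, hint, hmean⟩ := mu_basic hq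
  have hi2 : u i ^ 2 = 1 / 2 := by
    rw [← sq_abs, hi, div_pow, Real.sq_sqrt (by norm_num)]; norm_num
  have hj2 : u j ^ 2 = 1 / 2 := by
    rw [← sq_abs, hj, div_pow, Real.sq_sqrt (by norm_num)]; norm_num
  have hz : ∀ k, k ≠ i → k ≠ j → u k = 0 := by
    intro k hki hkj
    have h2 : u k ^ 2 + (u i ^ 2 + u j ^ 2) ≤ ∑ k, u k ^ 2 := by
      have : ∑ l ∈ ({k, i, j} : Finset ι), u l ^ 2 ≤ ∑ l, u l ^ 2 :=
        Finset.sum_le_sum_of_subset_of_nonneg (Finset.subset_univ _) (fun _ _ _ => sq_nonneg _)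
      rwa [Finset.sum_insert (by simp [hki, hkj]), Finset.sum_pair hij] at this
    have h3 : u k ^ 2 ≤ 0 := by linarith
    exact pow_eq_zero_iff (two_ne_zero) |>.1 (le_antisymm h3 (sq_nonneg _))
  have e : (fun t => ∏ k, ph (mu q) (u k * t)) =
      fun t => ph (mu q) (1 / √2 * t) * ph (mu q) (1 / √2 * t) := by
    ext t
    rw [← Finset.prod_subset (Finset.subset_univ ({i, j} : Finset ι)), Finset.prod_pair hij,
      ← ph_abs, hi, ← ph_abs (u j), hj]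
    intro k _ hk
    simp only [Finset.mem_insert, Finset.mem_singleton, not_or] at hk
    rw [hz k hk.1 hk.2, zero_mul, ph_zero]
  rw [e, Lf_two_gen hq (by positivity) (by positivity), ← two_mul,
    Real.mul_rpow (by norm_num) (by positivity), ← Real.rpow_mul (by positivity),
    mul_one_div_cancel (by linarith), Real.rpow_one, Real.rpow_sub (by norm_num),
    ← Real.sqrt_eq_rpow]
  ring

/-- The packets for the final theorem. -/
structure PkF : Prop where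
  main : GMain
  b4 : ∀ θ : ℝ, 1 / 6 ≤ θ → θ ≤ 1 / 4 → B4 θ (mu (1 / θ))
  vol : GVol
  clt : ∀ θ : ℝ, 1 / 4 < θ → θ < 1 / 2 → ∃ n0 : ℕ, ∀ n : ℕ, n0 ≤ n →
    Lf (fun t => ph (mu (1 / θ)) (1 / √n * t) ^ n) < (2 : ℝ) ^ (θ - 1 / 2)

lemma q_inv {p : ℝ} (_hp : 1 < p) : p / (p - 1) = 1 / ((p - 1) / p) := by
  rw [one_div_div]

lemma sum_sq_eq_one {n : ℕ} {u : EuclideanSpace ℝ (Fin n)} (hu : ‖u‖ = 1) : ∑ i, u i ^ 2 = 1 := by
  have := EuclideanSpace.real_norm_sq_eq u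
  rw [hu] at this
  simpa using this.symm

/-- The final theorem (real valued volumes), `6/5 ≤ p ≤ 4/3`. -/
theorem final (K : PkF) {p : ℝ} (hp : 6 / 5 ≤ p) (hp2 : p ≤ 4 / 3) (n : ℕ)
    (u : EuclideanSpace ℝ (Fin (n + 1))) (hu : ‖u‖ = 1) :
    (2 : ℝ) ^ (1 / 2 - 1 / p) * (volume : Measure (EuclideanSpace ℝ (Fin n))).real (Bp p n) ≤
      projVol p (n + 1) u ∧
    (0 < (volume : Measure (EuclideanSpace ℝ (Fin n))).real (Bp p n) →
     (projVol p (n + 1) u = (2 : ℝ) ^ (1 / 2 - 1 / p) *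
      (volume : Measure (EuclideanSpace ℝ (Fin n))).real (Bp p n) ↔
      ∃ i j, i ≠ j ∧ |u i| = 1 / √2 ∧ |u j| = 1 / √2)) := by
  have hp1 : 1 < p := by linarith
  have hp0 : 0 < p := by linarith
  set θ := (p - 1) / p with hθ
  have hθ1 : 1 / 6 ≤ θ := by rw [hθ, div_le_div_iff₀ (by norm_num) hp0]; linarith
  have hθ2 : θ ≤ 1 / 4 := by rw [hθ, div_le_div_iff₀ hp0 (by norm_num)]; linarith
  have hq : p / (p - 1) = 1 / θ := q_inv hp1
  have hB := K.b4 θ hθ1 hθ2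
  have hM := K.main θ _ hB (Fin (n + 1)) Finset.univ (fun i => u i)
  have h1 := sum_sq_eq_one hu
  have hexp : θ - 1 / 2 = 1 / 2 - 1 / p := by
    rw [hθ]; field_simp; ring
  rw [h1, Real.sqrt_one, mul_one, hexp] at hM
  have hV := K.vol p hp1 (by linarith) n u hu
  rw [hq] at hV
  have hq2 : 2 < 1 / θ := by rw [lt_div_iff₀ (by linarith)]; linarith
  set V := (volume : Measure (EuclideanSpace ℝ (Fin n))).real (Bp p n) with hVd
  have hV0 : 0 ≤ V := measureReal_nonneg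
  rw [hV]
  refine ⟨?_, fun hpos => ⟨fun h => ?_, fun ⟨i, j, hij, hi, hj⟩ => ?_⟩⟩
  · rw [mul_comm]
    exact mul_le_mul_of_nonneg_left hM.1 hV0
  · rw [mul_comm] at h
    have h2 := mul_right_cancel₀ hpos.ne' h
    obtain ⟨i, _, j, _, hij, hi, hj⟩ := hM.2 rfl h2
    exact ⟨i, j, hij, hi, hj⟩
  · have h3 := Lf_crit hq2 (fun i => u i) hij hi hj h1
    rw [h3, one_div_one_div, hexp, mul_comm]

/-- ENNReal form -/
theorem finalENN (K : PkF) {p : ℝ} (hp : 6 / 5 ≤ p) (hp2 : p ≤ 4 / 3) (n : ℕ)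
    (u : EuclideanSpace ℝ (Fin (n + 1))) (hu : ‖u‖ = 1) :
    ENNReal.ofReal ((2 : ℝ) ^ (1 / 2 - 1 / p)) *
        (volume : Measure (EuclideanSpace ℝ (Fin n))) (Bp p n) ≤
      (volume : Measure (ℝ ∙ u)ᗮ) ((ℝ ∙ u)ᗮ.orthogonalProjectionOnto '' Bp p (n + 1)) ∧
    ((volume : Measure (ℝ ∙ u)ᗮ) ((ℝ ∙ u)ᗮ.orthogonalProjectionOnto '' Bp p (n + 1)) =
      ENNReal.ofReal ((2 : ℝ) ^ (1 / 2 - 1 / p)) *
        (volume : Measure (EuclideanSpace ℝ (Fin n))) (Bp p n) ↔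
      ∃ i j, i ≠ j ∧ |u i| = 1 / √2 ∧ |u j| = 1 / √2) := by
  have hp0 : 0 < p := by linarith
  obtain ⟨h1, h2⟩ := final K hp hp2 n u hu
  have hfin := proj_finite hp0 (n + 1) u
  have hfin2 : (volume : Measure (EuclideanSpace ℝ (Fin n))) (Bp p n) ≠ ⊤ :=
    ((Bp_compact hp0 n).measure_lt_top).ne
  have hpos : 0 < (volume : Measure (EuclideanSpace ℝ (Fin n))).real (Bp p n) :=
    ENNReal.toReal_pos (Bp_pos hp0 n).ne' hfin2
  have e1 : (volume : Measure (ℝ ∙ u)ᗮ) ((ℝ ∙ u)ᗮ.orthogonalProjectionOnto '' Bp p (n + 1)) =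
      ENNReal.ofReal (projVol p (n + 1) u) := by
    unfold projVol
    rw [Measure.real, ENNReal.ofReal_toReal hfin]
  have e2 : ENNReal.ofReal ((2 : ℝ) ^ (1 / 2 - 1 / p)) *
        (volume : Measure (EuclideanSpace ℝ (Fin n))) (Bp p n) =
      ENNReal.ofReal ((2 : ℝ) ^ (1 / 2 - 1 / p) *
        (volume : Measure (EuclideanSpace ℝ (Fin n))).real (Bp p n)) := by
    rw [ENNReal.ofReal_mul (by positivity), Measure.real, ENNReal.ofReal_toReal hfin2]
  rw [e1, e2, ← h2 hpos]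
  refine ⟨ENNReal.ofReal_le_ofReal h1, ?_⟩
  rw [ENNReal.ofReal_eq_ofReal_iff (by unfold projVol; exact measureReal_nonneg) (by positivity)]

/-- Sharpness of `4/3`. -/
theorem sharp (K : PkF) {p : ℝ} (hp : 4 / 3 < p) (hp2 : p < 2) : ∃ n0 : ℕ, ∀ n : ℕ, n0 ≤ n →
    ∀ u : EuclideanSpace ℝ (Fin (n + 1)), ‖u‖ = 1 → (∃ i j, i ≠ j ∧ |u i| = 1 / √2 ∧ |u j| = 1 / √2) →
    ∃ v : EuclideanSpace ℝ (Fin (n + 1)), ‖v‖ = 1 ∧ (∀ i, |v i| = 1 / √(n + 1)) ∧
      (volume : Measure (ℝ ∙ v)ᗮ) ((ℝ ∙ v)ᗮ.orthogonalProjectionOnto '' Bp p (n + 1)) <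
      (volume : Measure (ℝ ∙ u)ᗮ) ((ℝ ∙ u)ᗮ.orthogonalProjectionOnto '' Bp p (n + 1)) := by
  have hp1 : 1 < p := by linarith
  have hp0 : 0 < p := by linarith
  set θ := (p - 1) / p with hθ
  have hθ1 : 1 / 4 < θ := by rw [hθ, div_lt_div_iff₀ (by norm_num) hp0]; linarith
  have hθ2 : θ < 1 / 2 := by rw [hθ, div_lt_div_iff₀ hp0 (by norm_num)]; linarith
  have hθ0 : 0 < θ := by linarith
  have hq : p / (p - 1) = 1 / θ := q_inv hp1
  have hq2 : 2 < 1 / θ := by rw [lt_div_iff₀ hθ0]; linarith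
  obtain ⟨n0, hn0⟩ := K.clt θ hθ1 hθ2
  refine ⟨n0, fun n hn u hu ⟨i, j, hij, hi, hj⟩ => ?_⟩
  set v : EuclideanSpace ℝ (Fin (n + 1)) := WithLp.toLp 2 (fun _ => 1 / √((n : ℝ) + 1)) with hv
  have hvi : ∀ i, v i = 1 / √((n : ℝ) + 1) := fun i => rfl
  have hn1 : (0 : ℝ) < (n : ℝ) + 1 := by positivity
  have hvn : ‖v‖ = 1 := by
    rw [EuclideanSpace.norm_eq, Real.sqrt_eq_one]
    simp only [hvi, Real.norm_eq_abs, sq_abs, div_pow, one_pow, Real.sq_sqrt hn1.le]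
    rw [Finset.sum_const, Finset.card_univ, Fintype.card_fin, nsmul_eq_mul]
    push_cast
    field_simp
  refine ⟨v, hvn, fun i => by rw [hvi, abs_of_nonneg (by positivity)], ?_⟩
  have hVu := K.vol p hp1 hp2 n u hu
  have hVv := K.vol p hp1 hp2 n v hvn
  rw [hq] at hVu hVv
  have e1 := Lf_crit hq2 (fun i => u i) hij hi hj (sum_sq_eq_one hu)
  rw [e1, one_div_one_div] at hVu
  have e2 : (fun t => ∏ k, ph (mu (1 / θ)) (v k * t)) =
      fun t => ph (mu (1 / θ)) (1 / √((n + 1 : ℕ) : ℝ) * t) ^ (n + 1) := by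
    ext t
    simp only [hvi]
    rw [Finset.prod_const, Finset.card_univ, Fintype.card_fin]
    push_cast
    rfl
  rw [e2] at hVv
  have h3 := hn0 (n + 1) (by omega)
  have hfin2 : (volume : Measure (EuclideanSpace ℝ (Fin n))) (Bp p n) ≠ ⊤ :=
    ((Bp_compact hp0 n).measure_lt_top).ne
  have hpos : 0 < (volume : Measure (EuclideanSpace ℝ (Fin n))).real (Bp p n) :=
    ENNReal.toReal_pos (Bp_pos hp0 n).ne' hfin2
  have e3 : ∀ w : EuclideanSpace ℝ (Fin (n + 1)),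
      (volume : Measure (ℝ ∙ w)ᗮ) ((ℝ ∙ w)ᗮ.orthogonalProjectionOnto '' Bp p (n + 1)) =
      ENNReal.ofReal (projVol p (n + 1) w) := by
    intro w
    unfold projVol
    rw [Measure.real, ENNReal.ofReal_toReal (proj_finite hp0 (n + 1) w)]
  rw [e3, e3, hVu, hVv]
  apply (ENNReal.ofReal_lt_ofReal_iff (by positivity)).2
  exact mul_lt_mul_of_pos_left h3 hpos

end Pool.Agent.Helper53.Pq
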