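import Pool.Agent.Helper28.NO.Final

/-!
# MP_705522_gt, `6/5 ≤ p ≤ 4/3` (`q = p/(p-1) ∈ [4,6]`, `θ = 1/q ∈ [1/6, 1/4]`): goals

Notation.  `μ = mu (1/θ)` is the law of `|Y|`, `E|Y| = 1`, `Y` of density `∝ |y|^(q-2) exp(-|y|^q)`;
`φ = ph μ`, `v = vv θ = Var|Y| = πθ/sin(πθ) - 1 ∈ [.0472,.1108]`, `σ² = 1 + v = E Y²`,
`C = 2^(θ-1/2)`, `κ = (π/8) 4^θ`, `dν = dt/t²` on `(0,∞)`,
`Lf h = (2/π) ∫ (1 - h) dν`, `V(u) = E|∑ u_i Y_i| = Lf (∏ φ(u_i ·))`.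
The theorem to prove: `V(u) ≥ C |u|`, with equality for unit vectors only if `u = (±1/√2, ±1/√2, 0..)`.

Structure of the proof (`x` = largest coordinate, unit vector, positive coordinates):
* `x > C`: `V ≥ x`.
* `x² ≤ 1/2`: weighted AM-GM and `∫ (1 - |φ|^s) dν ≥ (π/2) C √s` for `s ≥ 2` (`GI1`).
* `1/2 ≤ x² ≤ C²`, all other `u_j² ≤ .65 (1-x²)`: direct analysis (`GIIdir`, `GIIsc`).
* `1/2 ≤ x² ≤ C²`, some `u_j² ≥ .65 (1-x²)`: second and fourth moments (`GNear`, `GD`).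
-/

namespace Pool.Agent.Helper53.Pq

open MeasureTheory Set
open Pool.Agent.Helper28.NO (Lf Ok IsLaw ph hm mu muZ)
open Pool.Agent.Helper7.Proj (Zd Bp projVol)

/-! ### Explicit functions of `θ` -/

/-- `v(θ) = πθ/sin(πθ) - 1`, the variance of `|Y|`. -/
noncomputable def vv (θ : ℝ) : ℝ := Real.pi * θ / Real.sin (Real.pi * θ) - 1

/-- upper bound of the fourth central moment of `|Y|`. -/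
noncomputable def zz (θ : ℝ) : ℝ := 2.6 * vv θ ^ 2 + 0.0035

/-- bound for `|φ|` on `[π/2, ∞)`. -/
noncomputable def HH (θ : ℝ) : ℝ := 1.1835 - 2.2 * θ

/-- coefficient of the second order term in the Gaussian-type bound of `φ` on `[0,π/2]`. -/
noncomputable def cA (θ : ℝ) : ℝ := 0.3276 - 0.525 * vv θ

noncomputable def ct (θ : ℝ) : ℝ := cA θ * (1 + vv θ) ^ 2 / 4

/-- bounds for `E2 = ∫_{π/2}^∞ φ² dν`. -/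
noncomputable def E2lo (θ : ℝ) : ℝ :=
  1.85176 - Real.pi / 2 * (2 : ℝ) ^ θ + Real.pi / 4 * vv θ - 0.1716 * vv θ ^ 2

noncomputable def E2hi (θ : ℝ) : ℝ :=
  1.8528 - Real.pi / 2 * (2 : ℝ) ^ θ + Real.pi / 4 * vv θ - 0.0102 * vv θ ^ 2

/-- lower bound for `LL φ`. -/
noncomputable def LLlo (θ : ℝ) : ℝ := 0.4197 + 0.2412 * vv θ - 0.164 * vv θ ^ 2

/-- `K` and `L` of the estimate near the critical direction. -/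
noncomputable def Kf (θ a b : ℝ) : ℝ := (hm (1 / θ) a b ^ 2 / (a * b)) ^ (1 / θ - 1)

noncomputable def Lg (θ a b : ℝ) : ℝ := 4 * hm (1 / θ) a b * ((2 : ℝ) ^ θ - 1)

/-! ### The law of `|Y|` -/

/-- What is used about the law `μ` of `|Y|`. -/
structure B4 (θ : ℝ) (μ : Measure ℝ) : Prop where
  lo : 1 / 6 ≤ θ
  hi : θ ≤ 1 / 4
  prob : IsProbabilityMeasure μ
  pos : ∀ᵐ y ∂μ, 0 < y
  int4 : Integrable (fun y : ℝ => y ^ 4) μ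
  mean : ∫ y, y ∂μ = 1
  var : ∫ y, (y - 1) ^ 2 ∂μ = vv θ
  z3lo : -0.006 ≤ ∫ y, (y - 1) ^ 3 ∂μ
  z3hi : ∫ y, (y - 1) ^ 3 ∂μ ≤ 0
  z4 : ∫ y, (y - 1) ^ 4 ∂μ ≤ zz θ
  tv : ∀ t, 3 * Real.pi / 2 ≤ t → |ph μ t| ≤ HH θ
  max_eq : ∀ a b : ℝ, 0 ≤ a → 0 ≤ b →
    ∫ p : ℝ × ℝ, max (a * p.1) (b * p.2) ∂(μ.prod μ) = (a ^ (1 / θ) + b ^ (1 / θ)) ^ θ
  near : ∀ a b ρ : ℝ, 0 < b → b ≤ a → 0 ≤ ρ →
    Kf θ a b * (ρ ^ 2 / (2 * Lg θ a b) - ρ ^ 4 / (32 * Lg θ a b ^ 3)) ≤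
      ∫ p : ℝ × ℝ, max 0 (ρ - |a * p.1 - b * p.2|) ∂(μ.prod μ)

/-- What is used about the function `φ = ph μ` in the analysis. -/
structure Fn (θ : ℝ) (φ : ℝ → ℝ) : Prop where
  lo : 1 / 6 ≤ θ
  hi : θ ≤ 1 / 4
  meas : Measurable φ
  abs_le : ∀ t, |φ t| ≤ 1
  ab : ∀ t, 0 ≤ t → ∃ A B, φ t = Real.cos t * A - Real.sin t * B ∧
    1 - vv θ * t ^ 2 / 2 ≤ A ∧ A ≤ 1 - vv θ * t ^ 2 / 2 + zz θ * t ^ 4 / 24 ∧ |A| ≤ 1 ∧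
    -(zz θ * t ^ 4 / 36) ≤ B ∧ B ≤ 0.001 * t ^ 3 + zz θ * t ^ 4 / 36
  jj : ∀ t, 0 ≤ t → -φ t ≤ 1 - (t ^ 2 * vv θ + (t - Real.pi) ^ 2) / 2 +
    (t ^ 4 * zz θ + 6 * t ^ 2 * (t - Real.pi) ^ 2 * vv θ + (t - Real.pi) ^ 4) / 24 +
    0.001 * t ^ 3 * max 0 (Real.pi - t)
  quart : ∀ t, φ t ≤ 1 - (1 + vv θ) * t ^ 2 / 2 + (1 + 6 * vv θ + zz θ) * t ^ 4 / 24
  tv : ∀ t, 3 * Real.pi / 2 ≤ t → |φ t| ≤ HH θ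
  int2 : IntegrableOn (fun t => (1 - φ t ^ 2) / t ^ 2) (Ioi 0)
  eq2 : ∫ t in Ioi (0 : ℝ), (1 - φ t ^ 2) / t ^ 2 = Real.pi / 2 * (2 : ℝ) ^ θ

/-! ### Packets about the law -/

/-- Moments.  The substitution `x = z^q` (or `integral_rpow_mul_exp_neg_rpow`) gives
`E Z^k = Γ(1+(k-1)θ)/Γ(1-θ)` and `Zd q = θ Γ(1-θ)`. -/
def GMom : Prop := ∀ θ : ℝ, 0 < θ → θ < 1 / 2 → ∀ k : ℕ, 1 ≤ k →
  Integrable (fun y : ℝ => y ^ k) (mu (1 / θ)) ∧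
  ∫ y, y ^ k ∂(mu (1 / θ)) = Real.Gamma (1 + ((k : ℝ) - 1) * θ) * Real.Gamma (1 - θ) ^ (k - 1)

/-- The numerical facts on the third and fourth moments (`m₂ = 1 + vv θ`). -/
def GM4 : Prop := ∀ θ : ℝ, 1 / 6 ≤ θ → θ ≤ 1 / 4 →
  3 * (1 + vv θ) - 2.006 ≤ Real.Gamma (1 + 2 * θ) * Real.Gamma (1 - θ) ^ 2 ∧
  Real.Gamma (1 + 2 * θ) * Real.Gamma (1 - θ) ^ 2 ≤ 3 * (1 + vv θ) - 2 ∧
  Real.Gamma (1 + 3 * θ) * Real.Gamma (1 - θ) ^ 3 -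
    4 * (Real.Gamma (1 + 2 * θ) * Real.Gamma (1 - θ) ^ 2) + 6 * (1 + vv θ) - 3 ≤ zz θ

/-- Total variation bound.  `φ(t) = ∫ cos(ty) f(y) dy`, `f` the density of `|Y|`, unimodal with
`f(0) = 0` (`q > 2`), so `|φ(t)| = |∫ sin(ty) f'(y) dy|/t ≤ 2 max f/t`;
`max f = (1-2θ)^(1-2θ) e^(-(1-2θ))/(θ γ²)`, `γ = Γ(1-θ) ≥ Γ(5/6) ≥ 1.12` (`Γ` is convex with
`Γ(1) = Γ(2) = 1`, hence decreasing on `(0,1]`; `Γ(5/6) ≥ 1.12` is in `Helper88.Gam.Values`).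
`m(θ) = (1-2θ)^(1-2θ) e^(-(1-2θ)) = exp(w log w - w)`, `w = 1-2θ`, is convex in `θ`
(composition of `exp` with a convex function), so it lies below its chord:
`m ≤ .392 + .4431 (θ - 1/6)` (values `.39181` at `1/6`, `.42888` at `1/4`).  At `t ≥ 3π/2`:
`(4/(3π)) m/(1.2544 θ) ≤ 1.1835 - 2.2 θ`: after multiplication by `θ` the right side is concave and
the left side linear, so only `θ = 1/6` (`.1327 ≤ .1360`) and `θ = 1/4` (`.1452 ≤ .1582`) matter. -/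
def GTV : Prop := ∀ θ : ℝ, 1 / 6 ≤ θ → θ ≤ 1 / 4 → ∀ t : ℝ, 3 * Real.pi / 2 ≤ t →
  |ph (mu (1 / θ)) t| ≤ HH θ

/-- `B4`.  `var, z3lo, z3hi, z4` from `GMom`, `GM4` (`Γ(1+θ)Γ(1-θ) = πθ/sin πθ`,
`E(Y-1)³ = m₃ - 3m₂ + 2`, `E(Y-1)⁴ = m₄ - 4m₃ + 6m₂ - 3`), `tv` is `GTV`.
The remaining facts: `max_eq` (from `GD2` by scaling) and `near`.  For `near`: `GD3a` and
scaling give `K E(ρ - h|Y₁-Y₂|)₊ ≤ E(ρ - |aY₁-bY₂|)₊` with `h = hm q a b`.  With `L = 4h(2^θ-1)`: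
if `ρ ≤ L`, `GD3b` (as in `Helper88.NO.D4`, `U1`, there `Base.near`) gives
`E(ρ - h|Y₁-Y₂|)₊ ≥ ρ²/(2L)`; if `ρ ≥ L`, `E(ρ - h|Y₁-Y₂|)₊ ≥ ρ - h E|Y₁-Y₂| = ρ - L/2` because
`E|Y₁-Y₂| = 2(2^θ-1)`, and `ρ - L/2 ≥ ρ²/(2L) - ρ⁴/(32L³)` for `ρ ≥ L`
(with `y = ρ/L`: `y⁴/32 - y²/2 + y - 1/2 = (y-2)²(y²+4y-4)/32 ≥ 0` for `y ≥ 1`). -/
def GB4 : Prop := GMom → GM4 → GTV → ∀ θ : ℝ, 1 / 6 ≤ θ → θ ≤ 1 / 4 → B4 θ (mu (1 / θ))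

/-- Small numbers.  All of them: Taylor bounds for `sin`, `exp` with `Real.pi_gt_d6` etc.
(`v`: slack `1.5e-5`, width `1.1e-4`; `2^θ`: slack `1.1e-5`; third: slack `4e-5`).
Last inequality (`κ ≤ σ²/2`, equality at `θ = 1/4`), equivalent to
`sin(πθ) 4^θ ≤ 4θ`: the function `θ ↦ log(sin(πθ)/θ) + θ log 4` is concave on `(0,1)`
(`-π²/sin² + 1/θ² ≤ 0`) and equals `log 4` at `1/4` and at `1/2`, so it is `≤ log 4` for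
`θ ≤ 1/4` and `> log 4` on `(1/4,1/2)`. -/
def GNum : Prop := (∀ θ : ℝ, 1 / 6 ≤ θ → θ ≤ 1 / 4 →
  0.01207 - 0.1566 * θ + 2.2033 * θ ^ 2 ≤ vv θ ∧ vv θ ≤ 0.01218 - 0.1566 * θ + 2.2033 * θ ^ 2 ∧
  1.00052 + 0.6853 * θ + 0.2776 * θ ^ 2 ≤ (2 : ℝ) ^ θ ∧
  (2 : ℝ) ^ θ ≤ 1.00055 + 0.6853 * θ + 0.2776 * θ ^ 2 ∧
  0.0827 - 0.4639 * θ + 0.5311 * θ ^ 2 ≤ √((1 + vv θ) / 2) - √(Real.pi / 8) * (2 : ℝ) ^ θ ∧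
  0 ≤ √((1 + vv θ) / 2) - √(Real.pi / 8) * (2 : ℝ) ^ θ) ∧
  (∀ θ : ℝ, 1 / 4 < θ → θ < 1 / 2 → √((1 + vv θ) / 2) < √(Real.pi / 8) * (2 : ℝ) ^ θ)

/-- `c0 = ∫ (1 - cos t)/t² dt = π/2` (for instance from `Helper28.NO.mix` and the Gaussian law:
`(∫ (1 - e^(-t²/2))/t² dt)/c0 = E|G| = √(2/π)` and the integral is `√(π/2)`), and
`∫ (1 - e^(-bt²))/t² dt = √(πb)` (integrate by parts, Gaussian integral). -/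
def GC0 : Prop := Pool.Agent.Helper13.Proj.c0 = Real.pi / 2 ∧
  ∀ b : ℝ, 0 ≤ b → IntegrableOn (fun t : ℝ => (1 - Real.exp (-(b * t ^ 2))) / t ^ 2) (Ioi 0) ∧
    ∫ t in Ioi (0 : ℝ), (1 - Real.exp (-(b * t ^ 2))) / t ^ 2 = √(Real.pi * b)

/-- From the law to the function.  `Z = |Y| - 1`, `E Z = 0`, `E Z² = v`, `E Z³ ∈ [-.006,0]`,
`E Z⁴ ≤ zz`.  `φ(t) = E cos(t + tZ) = cos t E cos(tZ) - sin t E sin(tZ)`.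
`A = E cos(tZ)`: `1 - x²/2 ≤ cos x ≤ 1 - x²/2 + x⁴/24`.
`B = E sin(tZ)`: `|sin x - x + x³/6| ≤ x⁴/36` for all real `x` (for `0 ≤ x ≤ π` by
`0 ≤ sin x - x + x³/6 ≤ x⁵/120`; for `π ≤ x ≤ 2π`, `sin x ≤ 0` and `x²(6-x) ≤ 32 ≤ 36`; for
`x ≥ 6` because `x³/6 ≤ x⁴/36` and `sin x ≤ x`), so `|B + t³ E Z³/6| ≤ t⁴ zz/36`.
`jj`: `-φ(t) = E cos(tZ + (t-π)) ≤ 1 - E(tZ+τ)²/2 + E(tZ+τ)⁴/24`, `τ = t - π`,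
`E(tZ+τ)² = t²v + τ²`, `E(tZ+τ)⁴ = t⁴EZ⁴ + 4t³τEZ³ + 6t²τ²v + τ⁴`.
`quart`: `E|Y|⁴ = 1 + 6v + 4EZ³ + EZ⁴`, `E Y² = 1 + v`.
`eq2`: `Lf (φ²) = (1 + 1)^θ = 2^θ` (`max_eq`, as `Helper28.NO.Lf_two`) and `c0 = π/2`. -/
def GFn : Prop := ∀ (θ : ℝ) (μ : Measure ℝ), B4 θ μ → Fn θ (ph μ)

/-! ### Packets of one variable analysis -/

/-- `∫_{π/2}^∞ φ² dν`. -/
noncomputable def E2 (φ : ℝ → ℝ) : ℝ := ∫ t in Ioi (Real.pi / 2), φ t ^ 2 / t ^ 2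

/-- `∫_0^{π/2} φ² log(1/|φ|) dν`. -/
noncomputable def LL (φ : ℝ → ℝ) : ℝ :=
  ∫ t in Ioc 0 (Real.pi / 2), φ t ^ 2 * (-Real.log |φ t|) / t ^ 2

noncomputable def Q0 (φ : ℝ → ℝ) : ℝ :=
  (∫ t in Ioc 0 (Real.pi / 2), (1 - |φ t|) / t ^ 2) + 2 / Real.pi

noncomputable def G1 (θ : ℝ) (φ : ℝ → ℝ) : ℝ :=
  ∫ t in Ioc 0 (Real.pi / 2), |φ t| * (Real.exp (-((1 + vv θ) * t ^ 2 / 2)) - |φ t|) / t ^ 2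

noncomputable def KK (θ : ℝ) (φ : ℝ → ℝ) : ℝ :=
  ∫ t in Ioc 0 (Real.pi / 2),
    t ^ 2 * |φ t| * Real.exp (-((1 + vv θ) * t ^ 2 / 2)) * (1 - 0.0271 * t ^ 4)

noncomputable def Gam (s2 w : ℝ) : ℝ :=
  ∫ s in Ioc 1.9287 (Real.pi / (2 * √w)), Real.exp (-(s2 * s ^ 2 / 2)) / s ^ 2

/-- (A1).  Let `a = (1+v)t²/2 ∈ [0, 1.38]` and `k = (1+6v+zz)/(1+v)² ∈ [1.17, 1.38]`, `c = cA θ`.
`quart` says `φ ≤ P(a) = 1 - a + k a²/6`.  One has `c ≤ 1/2 - k/6` (polynomial inequality in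
`v ∈ [.047,.111]`), and `P(a) exp(a + c a²)` is decreasing on `[0,1.38]`: its derivative is
`exp(..)` times `a(k/3 + 2c - 1) + a²(k/6 - 2c) + (kc/3) a³ ≤ 0`.  So `φ ≤ exp(-a - c a²)`.
If `φ < 0` use `ab`: `-φ ≤ .001 t³ + zz t⁴/36 ≤ .01 ≤ exp(-1.38 - .31 · 1.38²)`. -/
def GA1 : Prop := ∀ (θ : ℝ) (φ : ℝ → ℝ), Fn θ φ → ∀ t, 0 ≤ t → t ≤ Real.pi / 2 →
  |φ t| ≤ Real.exp (-((1 + vv θ) * t ^ 2 / 2) - cA θ * ((1 + vv θ) * t ^ 2 / 2) ^ 2)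

/-- (H) and the signs of `φ`.
* `[π/2, 2.2]`: `|φ| ≤ |cos 2.2| + .001t³ + zz t⁴/36 ≤ .5886 + .034 < .633`.
* `[2.2, 3.6]`, `φ < 0`: `jj`; the polynomial
  `J(t) = 1 - (t²v+τ²)/2 + (t⁴zz + 6t²τ²v + τ⁴)/24 + .001 t³ max(0,-τ)`, `τ = t-π`, is decreasing in
  `v` (`∂J/∂v = t²(-1/2 + 5.2 v t²/24 + τ²/4) < 0`), so `v` may be replaced by its lower bound
  `.01207 - .1566θ + 2.2033θ²`; then `J ≤ 1.1835 - 2.2θ` is a polynomial inequality in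
  `(t,θ)` with margin `≥ 6e-4` (max of `J` near `t = 2.99` for `θ = 1/6`, `t = 2.95` for
  `θ = .19` where the margin is smallest, `t = 2.81` for `θ = 1/4`).
* `[2.2, 3.6]`, `φ ≥ 0`: `cos t ≤ 0`, `A ≥ .28 > 0`, so `φ ≤ |sin t| |B| ≤ .1`.
* `[3.6, 3π/2]`: `|φ| ≤ |cos t| (1 - vt²/2 + zz t⁴/24) + |sin t| (.001t³ + zz t⁴/36)`; values of the
  right side: `≤ .7207` (`θ = 1/6`, `HH = .8168`), `≤ .59` (`θ = 1/4`, `HH = .6335`); in between the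
  margin is `≥ .043`.
* `t ≥ 3π/2`: `tv`.
* Signs: `t ≤ 1.555`: `φ ≥ cos t (1 - vt²/2) - sin t (.001t³ + zz t⁴/36)`, at `1.555`, `θ = 1/4`:
  `.0136 - .0096 > 0`.  `[1.58, 3]`: `φ ≤ -|cos t| (1-vt²/2) + sin t · zz t⁴/36`, at `1.58`:
  `-.0079 + .0062 < 0`.  `[π/2,1.58]`: `|φ| ≤ |cos 1.58| + .0101`, more precisely `≤ .0181`. -/
def GH : Prop := GNum → ∀ (θ : ℝ) (φ : ℝ → ℝ), Fn θ φ →
  (∀ t, Real.pi / 2 ≤ t → |φ t| ≤ HH θ) ∧ (∀ t, 0 ≤ t → t ≤ 1.555 → 0 ≤ φ t) ∧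
  (∀ t, 1.58 ≤ t → t ≤ 3 → φ t ≤ 0) ∧
  (∀ t, Real.pi / 2 ≤ t → t ≤ 1.58 → |φ t| ≤ 0.0185)

/-- (E2).  `eq2` gives `E2 = ∫_0^{π/2} (1-φ²) dν + 2/π - (π/2) 2^θ`.  On `[0,π/2]`, `0 < A`:
`φ² = cos²A² - 2 sin cos A B + sin²B²`, hence
`φ² ≤ cos² t (1 - vt² + (v²/4+zz/12) t⁴) + sin 2t · zz t⁴/36 + (.001t³ + zz t⁴/36)²` and
`φ² ≥ cos² t (1 - vt² + v²t⁴/4) - sin 2t (.001 t³ + zz t⁴/36)`.
Integrals over `(0,π/2)`: `∫ sin²t/t² + 2/π = ∫ sin(2t)/t = Si(π) = 1.851937...` (needed: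
`1.851935 ≤ Si(π) ≤ 1.851938`), `∫ cos² = π/4`, `∫ t² cos² = π³/48 - π/8 = .25326..`,
`∫ t sin 2t = π/4`, `∫ t² sin 2t = π²/8 - 1/2 = .7337`, and
`∫ (.001t² + zz t³/36)² ≤ 1.02e-5`. -/
def GE2 : Prop := GNum → ∀ (θ : ℝ) (φ : ℝ → ℝ), Fn θ φ →
  IntegrableOn (fun t => φ t ^ 2 / t ^ 2) (Ioi (Real.pi / 2)) ∧ E2lo θ ≤ E2 φ ∧ E2 φ ≤ E2hi θ

/-- (LL).  Let `P(t) = t²/2 + t⁴/12 + t⁶/45 + 17t⁸/2520 + 31t¹⁰/14175 + 691t¹²/935550 + v t²/2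
+ v² t⁴/8 - .09 zz t⁴ ≥ 0`.  Claim: `|φ(t)| ≤ e^(-P(t))` on `(0,π/2)`; then
`φ² log(1/|φ|) ≥ φ² P` and, by the lower bound of `φ²` in `GE2`,
`LL ≥ ∫_0^{π/2} [cos²t (1 - vt² + v²t⁴/4) - sin 2t (.001t³ + zz t⁴/36)] P(t)/t² dt`, an explicit
polynomial in `v` whose value is `≥ .41982 + .24119 v - .1625 v²` (values: `.43085` at `v = .0472`,
`.43703` at `.07513`, `.44454` at `.1107`); all the integrals are `∫ t^(2m) cos² t`,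
`∫ t^m sin 2t`, explicit in `π`.
Claim: `-φ ≤ .01`, clear.  `φ ≤ cos t (1 - vt²/2 + zz t⁴/24) + sin t · zz t⁴/36`.  Let
`S(t)` be the first six terms of `P` (the Taylor polynomial of `log sec`, so `S ≤ log sec t`,
even `S + .000256 t¹⁴ ≤ log sec t`, because `tan' = 1 + tan²` gives nonnegative coefficients).
For `t ≤ 1.2` show `1 - vt²/2 + zz t⁴/24 + tan t · zz t⁴/36 ≤
exp(.000256 t¹⁴ - vt²/2 - v²t⁴/8 + .09 zz t⁴)` (smallest margin near `t = .98`, `θ = 1/4`: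
there `.077` instead of `.09` would suffice; `.0673` at `θ = 1/6`, `t = .82`); for `t ≥ 1.2` compare
`cos t (1 - vt²/2 + zz t⁴/24) + zz t⁴/36` with `e^(-P)` (`.3366` against `.3379` at `1.2`, `θ = 1/4`;
`0 + .006` against `.06` at `π/2`; the difference grows). -/
def GLL : Prop := GNum → ∀ (θ : ℝ) (φ : ℝ → ℝ), Fn θ φ →
  IntegrableOn (fun t => φ t ^ 2 * (-Real.log |φ t|) / t ^ 2) (Ioc 0 (Real.pi / 2)) ∧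
  LLlo θ ≤ LL φ

/-- (Q).  `Q0`: `|φ| ≤ cos t (1 - vt²/2 + zz t⁴/24) + sin t (.001t³ + zz t⁴/36)`;
`∫_0^{π/2} (1 - cos t)/t² + 2/π = Si(π/2) = 1.370762..`, `∫ cos = 1`, `∫ t² cos = π²/4 - 2`,
`∫ t sin = 1`, `∫ t² sin = π - 2`.
`G1`: `f = |φ|`, `e = e^(-(1+v)t²/2)`, `p = cos t (1 - vt²/2)`: `f(e-f) ≤ p(e-p) + (f-p)(e-2p)`,
`|f - p| ≤ δ = sin t (.001t³ + zz t⁴/36) + cos t zz t⁴/24` (lower side without the `cos` term),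
`0 ≤ p ≤ e` so `|e - 2p| ≤ ..`: where `e ≤ 2p` the second term is `≤ sin t (.001t³+zz t⁴/36) p`,
where `e ≥ 2p` (only for `t ≥ 1.4`) it is `≤ δ e`, total `≤ .0003927 + .0102 zz + .0001`;
`e ≤ e^(-t²/2) (1 - vt²/2 + v²t⁴/8)`, so
`∫ p(e-p) dν ≤ G_0 - v G_2 + v² (G_4/4 + K_0/8)`,
`G_0 = ∫ cos t (e^(-t²/2) - cos t)/t² = .0310654`, `G_2 = ∫ cos t (e^(-t²/2) - cos t) = .029606`,
`G_4 = ∫ t² cos t (e^(-t²/2) - cos t) ≤ .05`, `K_0 = ∫ t² cos t e^(-t²/2) ≤ .3`; total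
`≤ .0314 - .0195 v` (value `.0303` at `v = .0472`, `.0291` at `v = .1107`).
`KK`: `|φ| ≥ cos t (1 - vt²/2) - sin t (.001t³ + zz t⁴/36)`; worst case values of `KK`:
`.27066` at `v = .0472`, `.26404` at `.07513`, `.25569` at `.1107` (claimed `.27009, .26346, .25500`).
-/
def GQ : Prop := GNum → ∀ (θ : ℝ) (φ : ℝ → ℝ), Fn θ φ →
  IntegrableOn (fun t => (1 - |φ t|) / t ^ 2) (Ioc 0 (Real.pi / 2)) ∧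
  1.3695 + vv θ / 2 - 0.1332 * vv θ ^ 2 ≤ Q0 φ ∧ G1 θ φ ≤ 0.0314 - 0.0195 * vv θ ∧
  0.2813 - 0.2375 * vv θ ≤ KK θ φ

/-! ### All coordinates with `u_i² ≤ 1/2` -/

/-- scalar inequality (Ia): margin `≥ 9.7e-4` (`θ = 1/6`: `.00123`, `θ = .208`: `.0030`,
`θ = .24`: `.0018`, `θ = 1/4`: `.00097`). -/
def GIa : Prop := GNum → ∀ θ : ℝ, 1 / 6 ≤ θ → θ ≤ 1 / 4 →
  Real.pi / 8 * (2 : ℝ) ^ θ < LLlo θ + (-0.112 - Real.log (HH θ)) * E2lo θ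

/-- scalar inequality (Ib): margin `≥ .00118` (`θ = 1/4`; `.0028` at `.24`, `.0075` at `.208`, `.0103`
at `1/6`). -/
def GIb : Prop := GNum → ∀ θ : ℝ, 1 / 6 ≤ θ → θ ≤ 1 / 4 →
  HH θ ^ (1.25 : ℝ) * E2hi θ <
    √(3.25 * Real.pi) * (√((1 + vv θ) / 2) - √(Real.pi / 8) * (2 : ℝ) ^ θ) +
    0.3133 * cA θ * √(1 + vv θ) / √3.25 - 0.5875 * cA θ ^ 2 * √(1 + vv θ) / (3.25 * √3.25)

/-- The key inequality `∫ (1 - |φ|^s) dν ≥ (π/2) C √s`, `s ≥ 2`.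
Let `g = e^(-κt²)`, `κ = (π/8) 4^θ`, so `∫ (1 - g^s) dν = √(πκs) = (π/2) C √s`.
`D(s) = ∫ (1-|φ|^s) dν - ∫ (1-g^s) dν`.  For `t ≤ π/2`, `|φ| ≤ g` by `GA1` and `κ ≤ (1+v)/2`.

(a) `s = 2 + c`, `0 ≤ c ≤ 1.25`.  For `0 ≤ y ≤ 1` let `G(y) = y² log y/2 - y²/4` (`G(0) = 0`,
`G'(y) = y log y`).  For every real `ℓ` and `0 ≤ Φ ≤ g ≤ 1`:
`g^s - Φ^s ≥ s e^(cℓ) [(1 - cℓ)(g² - Φ²)/2 + c (G(g) - G(Φ))]`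
(the difference `y^s - s e^(cℓ)[(1-cℓ)y²/2 + c G(y)]` has derivative
`s y [e^(c log y) - e^(cℓ)(1 + c(log y - ℓ))] ≥ 0`).  Use it with `Φ = |φ|` for `t ≤ π/2` and
`Φ = 0` for `t > π/2`, where moreover `|φ|^s ≤ H^c φ²`, `H = HH θ`.  Since
`∫ (1-g²) dν = (π/2) 2^θ = ∫ (1-φ²) dν`, the integral of `g² - Φ²` is `E2`;
`∫_0^∞ g² log g dν = -κ ∫ e^(-2κt²) dt = -(π/8) 2^θ`; so
`D(s) ≥ s e^(cℓ)/2 · [E2 + c (LL - (π/8) 2^θ - (1/2 + ℓ) E2)] - H^c E2`.  With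
`ℓ = log H - .388` the bracket is `≥ E2` by `GIa` (`LL ≥ LLlo`, `E2 ≥ E2lo`,
`.388 - 1/2 - log H > 0`), `e^(cℓ) = H^c e^(-.388c)` and `(1 + c/2) e^(-.388 c) ≥ 1` for
`0 ≤ c ≤ 1.25` (`e^(.388c)` is convex, equality at `0`, `e^(.485) < 1.625`).  So `D(s) ≥ 0`, and
`> 0` if `c > 0`.

(b) `s ≥ 3.25`.  By `GA1` (`a = (1+v)t²/2`) `|φ|^s ≤ e^(-sa - s c a²)` on `[0,π/2]`, `c = cA θ`, and
`∫_{t>π/2} |φ|^s dν ≤ H^(s-2) E2`.  Hence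
`D(s) ≥ ∫_0^∞ (e^(-κst²) - e^(-sa)) dν + ∫_0^∞ e^(-sa) (1 - e^(-sca²)) dν - H^(s-2) E2`; the first
integral is `√(πs) (√((1+v)/2) - √κ)`, in the second `1 - e^(-y) ≥ y - y²/2`, giving
`(√(π/2)/4) c σ/√s - (15/32) √(π/2) c² σ s^(-3/2)`, `σ = √(1+v)`; `√(π/2)/4 ≥ .3133`,
`(15/32)√(π/2) ≤ .5875`.  Multiply by `√s`: the first terms are nondecreasing in `s`
(`s ↦ -1/s`), and `H^(s-2) √s` is decreasing for `s ≥ 3.25` (`log H + 1/(2s) < 0`); at `s = 3.25` the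
inequality is `GIb`. -/
def GI1 : Prop := GNum → GC0 → GA1 → GH → GE2 → GLL → GIa → GIb →
  ∀ (θ : ℝ) (φ : ℝ → ℝ), Fn θ φ → ∀ s : ℝ, 2 ≤ s →
  IntegrableOn (fun t => (1 - |φ t| ^ s) / t ^ 2) (Ioi 0) ∧
  Real.pi / 2 * (2 : ℝ) ^ (θ - 1 / 2) * √s ≤ ∫ t in Ioi (0 : ℝ), (1 - |φ t| ^ s) / t ^ 2 ∧
  (2 < s → Real.pi / 2 * (2 : ℝ) ^ (θ - 1 / 2) * √s < ∫ t in Ioi (0 : ℝ), (1 - |φ t| ^ s) / t ^ 2)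

/-! ### One coordinate with `x² ≥ 1/2`, the others spread -/

noncomputable def TT2 (θ y w : ℝ) : ℝ :=
  if w ≤ 1 / 2 then √(y * w) * HH θ ^ (1 / w - 1) else (y * w) ^ (1 / (4 * w)) * HH θ ^ (1 / w - 1)

/-- Direct analysis.  `r² = 1 - x²`, `y = r²/x²`, `w_j = u_j²/r²` (`∑ w_j = 1`, `w_j ≤ .65`),
`ρ = √y = r/x ≤ 1`, `σ² = 1+v`, `c̃ = ct θ`, `e₂ = ∑ w_j² ≤ .65`, `T = 1.9287/r`.
For `t ≤ T`: `u_j t ≤ 1.9287 √.65 ≤ 1.555`, so `φ(u_j t) ≥ 0`, and by `GA1`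
`∏ φ(u_j t) ≤ exp(-σ²r²t²/2 - c̃ r⁴ e₂ t⁴)`.  Also `x T = 1.9287/ρ ∈ [1.9287, 3]` as `y ≥ .414`.
* `0 < t ≤ π/(2x)`: `1 - φ(xt)∏ ≥ 1 - |φ(xt)| exp(..)`.  With `s = xt`:
  `exp(-σ²ys²/2) ≤ (1-y) + y e^(-σ²s²/2)` (convexity), and with `Y = c̃y²e₂s⁴`,
  `e^(-Y) ≤ 1 - Y + Y²/2 ≤ 1 - Y(1 - .0271s⁴)` (`c̃ ≤ .0833`), and
  `e^(-σ²ys²/2) ≥ e^(-σ²s²/2)`.  Integral `≥ x [(1-y)(Q0-2/π) + y(Q1-2/π) + c̃y²e₂KK]`, where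
  `Q1 = ∫_0^{π/2} (1 - |φ|e^(-σ²s²/2)) dν + 2/π = (π/2)2^θ + E2 - G1`
  (because `∫_0^{π/2}(1-φ²)dν + 2/π = (π/2) 2^θ + E2`).
* `π/(2x) < t ≤ 1.58/x`: `1 - φ(xt)∏ ≥ 1 - .0185`; `1.58/x < t ≤ T`: `φ(xt) ≤ 0 ≤ ∏`, so `≥ 1`.
  `∫_{t>π/(2x)} dν = 2x/π`; loss `≤ .0185 x (2/π - 1/1.58) ≤ .00007 x`.
* `t > T`: `|φ(xt)| ∏|φ(u_jt)| ≤ ∑ w_j |φ(xt)||φ(u_jt)|^(1/w_j)` (weighted AM-GM).  For each `j`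
  (`w = w_j`, `u = u_j`; note `π/(2u) ≥ 1.948/r > T`): on `(T, π/(2u)]`, `|φ(xt)| ≤ H` (`xt ≥ π/2`),
  `|φ(ut)|^(1/w) ≤ e^(-σ²r²t²/2)`: integral `≤ H r Gam(σ²,w)` (`s = rt`).  On `t > π/(2u)`:
  if `w ≤ 1/2`: `|φ(xt)| ≤ H`, `|φ(ut)|^(1/w) ≤ H^(1/w-2) φ(ut)²`: `≤ H^(1/w-1) u E2`;
  if `w > 1/2`: Hölder with exponents `p' = 2w` on `|φ(ut)|^(1/w)` and `p = 2w/(2w-1)` on
  `|φ(xt)|`: `≤ (∫|φ(xt)|^p)^(1/p) (∫ φ(ut)²)^(1/(2w)) ≤ (H^(p-2) x E2)^(1/p) (u E2)^(1/(2w))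
  = E2 H^(1/w-1) x (u/x)^(1/(2w))` (`xt > π/2` there, as `u ≤ x`), and `u/x = √(yw)`. -/
def GIIdir : Prop := GNum → GA1 → GH → GE2 → GQ → ∀ (θ : ℝ) (φ : ℝ → ℝ), Fn θ φ →
  ∀ (ι : Type) (S : Finset ι) (u : ι → ℝ) (x : ℝ), 0 < x → 1 / 2 ≤ x ^ 2 → x ^ 2 < 1 →
  x ^ 2 + ∑ i ∈ S, u i ^ 2 = 1 → (∀ i ∈ S, 0 < u i ∧ u i ^ 2 ≤ 0.65 * (1 - x ^ 2)) →
  0.414 ≤ (1 - x ^ 2) / x ^ 2 →
  IntegrableOn (fun t => (1 - φ (x * t) * ∏ i ∈ S, φ (u i * t)) / t ^ 2) (Ioi 0) →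
  ∑ i ∈ S, u i ^ 2 / (1 - x ^ 2) *
    ((1 - (1 - x ^ 2) / x ^ 2) * Q0 φ +
      (1 - x ^ 2) / x ^ 2 * (Real.pi / 2 * (2 : ℝ) ^ θ + E2 φ - G1 θ φ) +
      ct θ * ((1 - x ^ 2) / x ^ 2) ^ 2 * KK θ φ * (u i ^ 2 / (1 - x ^ 2)) - 0.00007 -
      √((1 - x ^ 2) / x ^ 2) * HH θ * Gam (1 + vv θ) (u i ^ 2 / (1 - x ^ 2)) -
      TT2 θ ((1 - x ^ 2) / x ^ 2) (u i ^ 2 / (1 - x ^ 2)) * E2 φ) ≤
    x⁻¹ * ∫ t in Ioi (0 : ℝ), (1 - φ (x * t) * ∏ i ∈ S, φ (u i * t)) / t ^ 2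

/-- scalar inequality (II).  Margin `≥ .0049`.  Linear in `E`: only `E = E2lo`, `E = E2hi`.
Bounds for `Gam`, `T = 1.9287`, `b = 1+v`: always `Gam ≤ J0 = e^(-bT²/2)/(T(bT²+2))` (derivative of
`e^(-bs²/2)/(s(bs²+2))`, `bT² ≥ 2`), and `Gam(b,w) ≤ (π/(2√w) - T) e^(-bT²/2)/T²`.
For `w ∈ [w₀,w₁]` with `[0,.35], [.35,.5], [.5,.55], [.55,.6], [.6,.63], [.63,.65]`: replace
`w` by `w₀` in the `KK` term and in `Gam` (`J0` for the first two intervals) and by `w₁` in `TT2`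
(increasing in `w`, with the same exponent `1/(4w₁)`, `1/2` for the first two).  The resulting
function of `y` is convex, so it lies above its tangent at `y = .85`, whose values at `y = .414` and
`y = 1` are `≥ .0137, .0075, .0058, .0042, .0042, .0032` in the six cases (all at `θ = 1/4`; larger
for smaller `θ`, `≥ .01` at `θ = 1/6`): one-variable inequalities in `θ`. -/
def GIIsc : Prop := GNum → ∀ θ : ℝ, 1 / 6 ≤ θ → θ ≤ 1 / 4 → ∀ y w q0 g1 k e : ℝ,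
  0.414 ≤ y → y ≤ 1 → 0 < w → w ≤ 0.65 →
  1.3695 + vv θ / 2 - 0.1332 * vv θ ^ 2 ≤ q0 → g1 ≤ 0.0314 - 0.0195 * vv θ →
  0.2813 - 0.2375 * vv θ ≤ k → E2lo θ ≤ e → e ≤ E2hi θ →
  Real.pi / 2 * (2 : ℝ) ^ (θ - 1 / 2) * √(1 + y) <
    (1 - y) * q0 + y * (Real.pi / 2 * (2 : ℝ) ^ θ + e - g1) + ct θ * y ^ 2 * k * w - 0.00007 -
      √y * HH θ * Gam (1 + vv θ) w - TT2 θ y w * e

/-! ### Two large coordinates -/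

/-- the laws of the partial sums with their second and fourth moments
(`E(X+εX')⁴ = EX⁴ + 6 EX² EX'² + EX'⁴`; `E Y⁴ ≤ 3 (E Y²)²`). -/
def GLaw : Prop := ∀ (μ : Measure ℝ), IsProbabilityMeasure μ → Integrable (fun y : ℝ => y ^ 4) μ →
  ∀ s2 : ℝ, ∫ y, y ^ 2 ∂μ = s2 → ∫ y, y ^ 4 ∂μ ≤ 3 * s2 ^ 2 →
  ∀ (ι : Type) (S : Finset ι) (u : ι → ℝ),
  ∃ ν, IsLaw (fun t => ∏ i ∈ S, ph μ (u i * t)) ν ∧ Integrable (fun x : ℝ => x ^ 4) ν ∧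
    ∫ x, x ^ 2 ∂ν = s2 * ∑ i ∈ S, u i ^ 2 ∧ ∫ x, x ^ 4 ∂ν ≤ 3 * s2 ^ 2 * (∑ i ∈ S, u i ^ 2) ^ 2

/-- `V = E|aY₁+bY₂+R| ≥ E max(a|Y₁|,b|Y₂|) + ½ E(|R| - |a|Y₁|-b|Y₂||)₊`: for fixed
`A = a|Y₁|`, `B = b|Y₂|` and `R` the average over the signs is
`½ max(A+B,|R|) + ½ max(|A-B|,|R|)`.  Then `B4.max_eq` and `B4.near` (for fixed `R`), and the moments
of `ν`. -/
def GNear : Prop := ∀ (θ : ℝ) (μ : Measure ℝ), B4 θ μ → ∀ (h : ℝ → ℝ) (ν : Measure ℝ),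
  IsLaw h ν → Integrable (fun x : ℝ => x ^ 4) ν → ∀ a b R : ℝ, 0 < b → b ≤ a → 0 ≤ R →
  ∫ x, x ^ 2 ∂ν = (1 + vv θ) * R → ∫ x, x ^ 4 ∂ν ≤ 3 * (1 + vv θ) ^ 2 * R ^ 2 →
  (a ^ (1 / θ) + b ^ (1 / θ)) ^ θ + 1 / 2 * Kf θ a b *
    ((1 + vv θ) * R / (2 * Lg θ a b) - 3 * (1 + vv θ) ^ 2 * R ^ 2 / (32 * Lg θ a b ^ 3)) ≤
  Lf (fun t => ph μ (a * t) * (ph μ (b * t) * h t))

/-- scalar inequality (D).  `q = 1/θ`, `S = a²+b² = 1-R`, `a² = S(1+δ)/2`, `b² = S(1-δ)/2`,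
`0 ≤ δ < .6`, `m = q/2 ∈ [2,3]`, `s = m - 2 ∈ [0,1]`, `C = 2^(θ-1/2)`, `c = 2^θ - 1`, `σ² = 1+v`,
`Z = ((1+δ)^m + (1-δ)^m)/2`.  Then `(a^q+b^q)^θ = C √S Z^θ`, `hm = √(S/2) √(1-δ²) Z^(-θ)`,
`hm²/(ab) = √(1-δ²) Z^(-2θ)`, and the claim divided by `C`, times `√S`, is
`G := S Z^θ - √S + κ R Y T > 0`, where `κ = σ²/(8 c 2^θ) ≥ .617`,
`Y = Z^(-(2-3θ)) (1-δ²)^((q-2)/2)`, `T = 1 - (3/128) σ² R Z^(2θ)/(S (1-δ²) c²)`.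
Bounds: `√S ≤ 1 - R/2 - R²/8`; `Z ≤ 1 + X`, `X = (q-3)δ²` (convexity in `m` between `m = 2`,
`Z = 1+δ²`, and `m = 3`, `Z = 1+3δ²`); `Z ≥ 1 + X'`,
`X' = X - s(1-s)/4 [(1+δ)³log²(1+δ) + (1-δ)²log²(1-δ)]` (error of linear interpolation in `m`);
`Z^θ ≥ 1 + θX' - θ(1-θ)X'²/2`; `Z^(-(2-3θ)) ≥ 1/(1+pX+p(p-1)X²/2)`, `p = 2-3θ`;
`(1-δ²)^((q-2)/2) ≥ 1 - (q-2)δ²/2`; `Z^(2θ) ≤ 1 + 2θX`.  So `G ≥ R · g`,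
`g = (S/R)(θX' - θ(1-θ)X'²/2) - 1/2 + R/8 + κ Y T`, and the lower bound of `g` is decreasing in `R`
for fixed `δ`.  The conditions give `R ≤ δ/(1+δ)` (from `a² ≥ 1/2`) and
`R ≤ 7(1-δ)/(33-7δ)` (from `b² ≥ .65(1-a²)`); so it suffices to take `R = δ/(1+δ)` (`S/R = 1/δ`) for
`δ ≤ 7/33`, and `R = 7(1-δ)/(33-7δ)` (`S/R = 26/(7(1-δ))`) for `7/33 ≤ δ ≤ .58`
(`a² ≤ C² ≤ 2^(-1/2)`; `δ ≤ .45` for `θ = 1/6`).  There the lower bound of `g` is `≥ .039`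
(minimum near `δ = .212`: `.0666` at `θ = 1/6`, `.078` at `.19`, `.0726` at `.208`, `.0397` at
`1/4`).  If `R = 0` the claim is `C Z^θ > C` unless `δ = 0`. -/
def GD : Prop := GNum → ∀ θ a b R : ℝ, 1 / 6 ≤ θ → θ ≤ 1 / 4 → 0 < b → b ≤ a → 0 ≤ R →
  a ^ 2 + b ^ 2 + R = 1 → 1 / 2 ≤ a ^ 2 → a ^ 2 ≤ (2 : ℝ) ^ (2 * θ - 1) →
  0.65 * (1 - a ^ 2) ≤ b ^ 2 → ¬ (R = 0 ∧ a = b) →
  (2 : ℝ) ^ (θ - 1 / 2) < (a ^ (1 / θ) + b ^ (1 / θ)) ^ θ + 1 / 2 * Kf θ a b *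
    ((1 + vv θ) * R / (2 * Lg θ a b) - 3 * (1 + vv θ) ^ 2 * R ^ 2 / (32 * Lg θ a b ^ 3))

/-! ### Assembly -/

/-- weighted AM-GM, integrated. -/
def GAGr : Prop := ∀ (ι : Type) (S : Finset ι) (lam : ι → ℝ) (h : ι → ℝ → ℝ),
  (∀ i ∈ S, 0 < lam i) → ∑ i ∈ S, lam i = 1 → (∀ i ∈ S, Measurable (h i)) →
  (∀ i ∈ S, ∀ t, |h i t| ≤ 1) →
  (∀ i ∈ S, IntegrableOn (fun t => (1 - |h i t| ^ (1 / lam i)) / t ^ 2) (Ioi 0)) →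
  IntegrableOn (fun t => (1 - ∏ i ∈ S, h i t) / t ^ 2) (Ioi 0) →
  ∑ i ∈ S, lam i * ∫ t in Ioi (0 : ℝ), (1 - |h i t| ^ (1 / lam i)) / t ^ 2 ≤
    ∫ t in Ioi (0 : ℝ), (1 - ∏ i ∈ S, h i t) / t ^ 2

/-- The abstract theorem. -/
def GMain : Prop := ∀ (θ : ℝ) (μ : Measure ℝ), B4 θ μ → ∀ (ι : Type) (S : Finset ι) (u : ι → ℝ),
  (2 : ℝ) ^ (θ - 1 / 2) * √(∑ i ∈ S, u i ^ 2) ≤ Lf (fun t => ∏ i ∈ S, ph μ (u i * t)) ∧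
  (∑ i ∈ S, u i ^ 2 = 1 → Lf (fun t => ∏ i ∈ S, ph μ (u i * t)) = (2 : ℝ) ^ (θ - 1 / 2) →
    ∃ i ∈ S, ∃ j ∈ S, i ≠ j ∧ |u i| = 1 / √2 ∧ |u j| = 1 / √2)

/-- Volumes: `Helper28.NO.projVol_eq` for all `1 < p < 2` (there only `p ≤ 6/5`, through `Base`; what is
used is `GD1` for `q > 2` and `E|Y| = 1`). -/
def GVol : Prop := ∀ p : ℝ, 1 < p → p < 2 → ∀ (n : ℕ) (u : EuclideanSpace ℝ (Fin (n + 1))), ‖u‖ = 1 →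
  projVol p (n + 1) u = (volume : Measure (EuclideanSpace ℝ (Fin n))).real (Bp p n) *
    Lf (fun t => ∏ i, ph (mu (p / (p - 1))) (u i * t))

/-- Sharpness (`θ > 1/4`, that is `p > 4/3`): the central limit theorem.  `φ = ph (mu (1/θ))`,
`E Y² = 1+v`; `n (φ(t/√n) - 1) → -(1+v)t²/2`, so `φ(t/√n)^n → e^(-(1+v)t²/2)`; dominated convergence:
`|1 - φ(t/√n)^n| ≤ min(2, (1+v) t²/2)` (as `1 ≥ φ(s) ≥ 1 - (1+v)s²/2` and Bernoulli when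
`(1+v)t²/2 ≤ 1`), so `Lf (φ(·/√n)^n) → (2/π)√(π(1+v)/2) = √(2(1+v)/π) < 2^(θ-1/2)`
(`GNum`, second part, times `2/√π`). -/
def GCLT : Prop := GNum → GC0 → GMom → ∀ θ : ℝ, 1 / 4 < θ → θ < 1 / 2 → ∃ n0 : ℕ, ∀ n : ℕ, n0 ≤ n →
  Lf (fun t => ph (mu (1 / θ)) (1 / √n * t) ^ n) < (2 : ℝ) ^ (θ - 1 / 2)

end Pool.Agent.Helper53.Pq
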