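import Pool.Agent.Helper53.Pq.Goals

/-!
# The abstract theorem from the goals
-/

namespace Pool.Agent.Helper53.Pq

open MeasureTheory Set
open Pool.Agent.Helper28.NO (Lf Ok IsLaw ph hm mu muZ Lf_scale ok_scale exists_isLaw_prod mix
  Lf_cos_cos ok_cos_cos integrable_max_abs ph_zero ph_abs ph_neg isLaw_ph)

/-- All goals used for the abstract theorem. -/
structure Pk : Prop where
  num : GNum
  c0 : GC0
  fn : GFn
  a1 : GA1
  hb : GH
  e2 : GE2
  ll : GLL
  qq : GQ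
  ia : GIa
  ib : GIb
  i1 : GI1
  iid : GIIdir
  iis : GIIsc
  law : GLaw
  near : GNear
  dd : GD
  ag : GAGr

variable {θ : ℝ} {μ : Measure ℝ}

lemma B4.int (hB : B4 θ μ) : Integrable (fun y : ℝ => y) μ := by
  have := hB.prob
  refine Integrable.mono' ((integrable_const (1 : ℝ)).add hB.int4) (by fun_prop) ?_
  refine Filter.Eventually.of_forall fun y => ?_
  rw [Real.norm_eq_abs, abs_le]
  have h1 : 0 ≤ (y ^ 2 - 1 / 2) ^ 2 := sq_nonneg _
  have h2 : 0 ≤ (y - 1 / 2) ^ 2 := sq_nonneg _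
  have h3 : 0 ≤ (y + 1 / 2) ^ 2 := sq_nonneg _
  simp only [Pi.add_apply]
  constructor <;> nlinarith

lemma B4.int2 (hB : B4 θ μ) : Integrable (fun y : ℝ => y ^ 2) μ := by
  have := hB.prob
  refine Integrable.mono' ((integrable_const (1 : ℝ)).add hB.int4) (by fun_prop) ?_
  refine Filter.Eventually.of_forall fun y => ?_
  rw [Real.norm_eq_abs, abs_of_nonneg (sq_nonneg _)]
  simp only [Pi.add_apply]
  nlinarith [sq_nonneg (y ^ 2 - 1 / 2)]

lemma B4.int3 (hB : B4 θ μ) : Integrable (fun y : ℝ => y ^ 3) μ := by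
  have := hB.prob
  refine Integrable.mono' ((integrable_const (1 : ℝ)).add hB.int4) (by fun_prop) ?_
  refine Filter.Eventually.of_forall fun y => ?_
  rw [Real.norm_eq_abs, abs_le]
  simp only [Pi.add_apply]
  constructor
  · nlinarith [sq_nonneg (y ^ 2 + y / 2), sq_nonneg (y / 2 + 1), sq_nonneg (y - 1), sq_nonneg (y + 1),
      sq_nonneg (y ^ 2 - 1)]
  · nlinarith [sq_nonneg (y ^ 2 - y / 2), sq_nonneg (y / 2 - 1), sq_nonneg (y - 1), sq_nonneg (y + 1),
      sq_nonneg (y ^ 2 - 1)]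

lemma int_poly (hB : B4 θ μ) (c0 c1 c2 c3 c4 : ℝ) :
    ∫ y, (c4 * y ^ 4 + (c3 * y ^ 3 + (c2 * y ^ 2 + (c1 * y + c0)))) ∂μ =
      c4 * ∫ y, y ^ 4 ∂μ + (c3 * ∫ y, y ^ 3 ∂μ + (c2 * ∫ y, y ^ 2 ∂μ + (c1 * ∫ y, y ∂μ + c0))) := by
  have := hB.prob
  have i1 : Integrable (fun y : ℝ => c1 * y) μ := hB.int.const_mul c1
  have i2 : Integrable (fun y : ℝ => c2 * y ^ 2) μ := hB.int2.const_mul c2
  have i3 : Integrable (fun y : ℝ => c3 * y ^ 3) μ := hB.int3.const_mul c3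
  have i4 : Integrable (fun y : ℝ => c4 * y ^ 4) μ := hB.int4.const_mul c4
  have j1 : Integrable (fun y : ℝ => c1 * y + c0) μ := i1.add (integrable_const _)
  have j2 : Integrable (fun y : ℝ => c2 * y ^ 2 + (c1 * y + c0)) μ := i2.add j1
  have j3 : Integrable (fun y : ℝ => c3 * y ^ 3 + (c2 * y ^ 2 + (c1 * y + c0))) μ := i3.add j2
  rw [integral_add i4 j3, integral_add i3 j2, integral_add i2 j1,
    integral_add i1 (integrable_const _), integral_const_mul, integral_const_mul,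
    integral_const_mul, integral_const_mul]
  simp

/-- second moment -/
lemma B4.m2 (hB : B4 θ μ) : ∫ y, y ^ 2 ∂μ = 1 + vv θ := by
  have := hB.prob
  have h := hB.var
  have e : ∫ y, (y - 1) ^ 2 ∂μ =
      ∫ y, (0 * y ^ 4 + (0 * y ^ 3 + (1 * y ^ 2 + ((-2) * y + 1)))) ∂μ :=
    MeasureTheory.integral_congr_ae (Filter.Eventually.of_forall fun y => by ring)
  rw [e, int_poly hB, hB.mean] at h
  linarith

/-- fourth moment -/
lemma B4.m4 (hB : B4 θ μ) : ∫ y, y ^ 4 ∂μ ≤ 1 + 6 * vv θ + zz θ := by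
  have := hB.prob
  have h3 := hB.z3hi
  have h4 := hB.z4
  have h2 := hB.m2
  have e3 : ∫ y, (y - 1) ^ 3 ∂μ =
      ∫ y, (0 * y ^ 4 + (1 * y ^ 3 + ((-3) * y ^ 2 + (3 * y + (-1))))) ∂μ :=
    MeasureTheory.integral_congr_ae (Filter.Eventually.of_forall fun y => by ring)
  have e4 : ∫ y, (y - 1) ^ 4 ∂μ =
      ∫ y, (1 * y ^ 4 + ((-4) * y ^ 3 + (6 * y ^ 2 + ((-4) * y + 1)))) ∂μ :=
    MeasureTheory.integral_congr_ae (Filter.Eventually.of_forall fun y => by ring)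
  rw [e3, int_poly hB, hB.mean, h2] at h3
  rw [e4, int_poly hB, hB.mean, h2] at h4
  linarith

lemma zz_pos (θ : ℝ) : 0 < zz θ := by unfold zz; positivity

lemma vv_pos (P : Pk) (h1 : 1 / 6 ≤ θ) (h2 : θ ≤ 1 / 4) : 0 < vv θ := by
  have := (P.num.1 θ h1 h2).1
  nlinarith

/-- Jensen. -/
lemma jensen4 (hB : B4 θ μ) {h : ℝ → ℝ} {ν : Measure ℝ} (H : IsLaw h ν) {a : ℝ} (ha : 0 ≤ a) :
    Lf (fun t => Real.cos (a * t) * h t) ≤ Lf (fun t => ph μ (a * t) * h t) := by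
  have := hB.prob
  have := H.prob
  have hint := hB.int
  have i1 : Integrable (fun p : ℝ × ℝ => |a * p.1|) (μ.prod ν) :=
    ((hint.comp_fst ν).const_mul a).abs
  have i2 : Integrable (fun p : ℝ × ℝ => |p.2|) (μ.prod ν) := (H.int.comp_snd μ).abs
  have i3 : Integrable (fun p : ℝ × ℝ => max |a * p.1| |p.2|) (μ.prod ν) := i1.sup i2
  have hm := mix (μ.prod ν) (fun p t => Real.cos (a * p.1 * t) * Real.cos (p.2 * t))
    (by unfold Function.uncurry; fun_prop) (fun p => ok_cos_cos _ _) (by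
      refine i3.congr (Filter.Eventually.of_forall fun p => ?_)
      exact (Lf_cos_cos _ _).symm)
  have e : (fun t => ph μ (a * t) * h t) =
      fun t => ∫ p : ℝ × ℝ, Real.cos (a * p.1 * t) * Real.cos (p.2 * t) ∂(μ.prod ν) := by
    ext t
    rw [H.eq t, ph, ← integral_prod_mul]
    refine MeasureTheory.integral_congr_ae (Filter.Eventually.of_forall fun p => ?_)
    simp only
    ring_nf
  rw [e, hm.2, (H.main a).2]
  have e3 : ∀ p : ℝ × ℝ, Lf (fun t => Real.cos (a * p.1 * t) * Real.cos (p.2 * t)) =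
      max |a * p.1| |p.2| := fun p => Lf_cos_cos _ _
  simp_rw [e3]
  rw [integral_prod_symm _ i3]
  refine integral_mono (integrable_max_abs H.int a) i3.integral_prod_right (fun x => ?_)
  have i4 : Integrable (fun y : ℝ => max |a * y| |x|) μ :=
    ((hint.const_mul a).abs).sup (integrable_const _)
  apply max_le
  · rw [abs_of_nonneg ha]
    calc a = ∫ y, a * y ∂μ := by rw [integral_const_mul, hB.mean, mul_one]
      _ ≤ _ := integral_mono (hint.const_mul a) i4 (fun y => (le_abs_self _).trans (le_max_left _ _))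
  · calc |x| = ∫ _y, |x| ∂μ := by simp
      _ ≤ _ := integral_mono (integrable_const _) i4 (fun y => le_max_right _ _)

lemma CC_pos (θ : ℝ) : 0 < (2 : ℝ) ^ (θ - 1 / 2) := by positivity

lemma Lf_eq_int (P : Pk) (h : ℝ → ℝ) :
    Real.pi / 2 * Lf h = ∫ t in Ioi (0 : ℝ), (1 - h t) / t ^ 2 := by
  unfold Lf
  rw [P.c0.1]
  have := Real.pi_pos
  field_simp

/-- all coordinates small -/
lemma case_small (P : Pk) (hB : B4 θ μ) {ι : Type} (S : Finset ι) (u : ι → ℝ)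
    (hu : ∀ i ∈ S, 0 < u i) (h1 : ∑ i ∈ S, u i ^ 2 = 1) (h2 : ∀ i ∈ S, u i ^ 2 ≤ 1 / 2) :
    (2 : ℝ) ^ (θ - 1 / 2) ≤ Lf (fun t => ∏ i ∈ S, ph μ (u i * t)) ∧
    ((∃ i ∈ S, u i ^ 2 < 1 / 2) →
      (2 : ℝ) ^ (θ - 1 / 2) < Lf (fun t => ∏ i ∈ S, ph μ (u i * t))) := by
  have := hB.prob
  have F := P.fn θ μ hB
  set C := (2 : ℝ) ^ (θ - 1 / 2) with hC
  have hC0 : 0 < C := CC_pos θ
  have hpi := Real.pi_pos
  obtain ⟨ν, hν⟩ := exists_isLaw_prod hB.int S u
  have hI1 := P.i1 P.num P.c0 P.a1 P.hb P.e2 P.ll P.ia P.ib θ (ph μ) F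
  have hs : ∀ i ∈ S, 2 ≤ 1 / u i ^ 2 := by
    intro i hi
    have := hu i hi
    rw [le_div_iff₀ (by positivity)]
    linarith [h2 i hi]
  have okS : ∀ s : ℝ, 2 ≤ s → Ok (fun t => |ph μ t| ^ s) := by
    intro s hs
    refine ⟨(F.meas.abs).pow_const s, fun t => ?_, (hI1 s hs).1⟩
    rw [abs_of_nonneg (Real.rpow_nonneg (abs_nonneg _) _)]
    exact Real.rpow_le_one (abs_nonneg _) (F.abs_le t) (by linarith)
  have h0 : ph μ 0 = 1 := ph_zero
  have hterm : ∀ i ∈ S, ∫ t in Ioi (0 : ℝ), (1 - |ph μ (u i * t)| ^ (1 / u i ^ 2)) / t ^ 2 =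
      u i * ∫ t in Ioi (0 : ℝ), (1 - |ph μ t| ^ (1 / u i ^ 2)) / t ^ 2 := by
    intro i hi
    have e := Lf_scale (fun t => |ph μ t| ^ (1 / u i ^ 2)) (hu i hi).le (by simp [h0])
    have e1 := Lf_eq_int P (fun t => |ph μ (u i * t)| ^ (1 / u i ^ 2))
    have e2 := Lf_eq_int P (fun t => |ph μ t| ^ (1 / u i ^ 2))
    rw [← e1, ← e2, e]
    ring
  have hag := P.ag ι S (fun i => u i ^ 2) (fun i t => ph μ (u i * t))
    (fun i hi => by have := hu i hi; positivity) h1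
    (fun i _ => F.meas.comp (measurable_const.mul measurable_id)) (fun i _ t => F.abs_le _)
    (fun i hi => (ok_scale (okS _ (hs i hi)) (hu i hi)).int) hν.ok.int
  have hV := Lf_eq_int P (fun t => ∏ i ∈ S, ph μ (u i * t))
  have hsq : ∀ i ∈ S, √(1 / u i ^ 2) = 1 / u i := by
    intro i hi
    rw [Real.sqrt_div (by norm_num), Real.sqrt_one, Real.sqrt_sq (hu i hi).le]
  have hle : ∀ i ∈ S, u i ^ 2 * (Real.pi / 2 * C) ≤
      u i ^ 2 * ∫ t in Ioi (0 : ℝ), (1 - |ph μ (u i * t)| ^ (1 / u i ^ 2)) / t ^ 2 := by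
    intro i hi
    have hui := hu i hi
    apply mul_le_mul_of_nonneg_left _ (sq_nonneg _)
    rw [hterm i hi]
    have h3 := (hI1 _ (hs i hi)).2.1
    rw [hsq i hi] at h3
    calc Real.pi / 2 * C = u i * (Real.pi / 2 * C * (1 / u i)) := by field_simp
      _ ≤ _ := mul_le_mul_of_nonneg_left h3 hui.le
  have hsum : ∑ i ∈ S, u i ^ 2 * (Real.pi / 2 * C) = Real.pi / 2 * C := by
    rw [← Finset.sum_mul, h1, one_mul]
  constructor
  · have h4 := Finset.sum_le_sum hle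
    rw [hsum] at h4
    have h5 : Real.pi / 2 * C ≤ Real.pi / 2 * Lf (fun t => ∏ i ∈ S, ph μ (u i * t)) := by
      rw [hV]; exact h4.trans hag
    exact le_of_mul_le_mul_left h5 (by positivity)
  · rintro ⟨j, hj, hj2⟩
    have h4 : ∑ i ∈ S, u i ^ 2 * (Real.pi / 2 * C) < ∑ i ∈ S,
        u i ^ 2 * ∫ t in Ioi (0 : ℝ), (1 - |ph μ (u i * t)| ^ (1 / u i ^ 2)) / t ^ 2 := by
      refine Finset.sum_lt_sum hle ⟨j, hj, ?_⟩
      have huj := hu j hj
      apply mul_lt_mul_of_pos_left _ (by positivity)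
      rw [hterm j hj]
      have h3 := (hI1 _ (hs j hj)).2.2 (by
        rw [lt_div_iff₀ (by positivity)]
        linarith)
      rw [hsq j hj] at h3
      calc Real.pi / 2 * C = u j * (Real.pi / 2 * C * (1 / u j)) := by field_simp
        _ < _ := mul_lt_mul_of_pos_left h3 huj
    rw [hsum] at h4
    have h5 : Real.pi / 2 * C < Real.pi / 2 * Lf (fun t => ∏ i ∈ S, ph μ (u i * t)) := by
      rw [hV]; exact h4.trans_le hag
    exact lt_of_mul_lt_mul_left h5 (by positivity)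

lemma sq_CC (θ : ℝ) : ((2 : ℝ) ^ (θ - 1 / 2)) ^ 2 = (2 : ℝ) ^ (2 * θ - 1) := by
  rw [← Real.rpow_natCast, ← Real.rpow_mul (by norm_num)]
  congr 1
  push_cast
  ring

lemma CCsq_le (h2 : θ ≤ 1 / 4) : (2 : ℝ) ^ (2 * θ - 1) ≤ 1 / 1.4142 := by
  have h3 : (2 : ℝ) ^ (2 * θ - 1) ≤ (2 : ℝ) ^ (-(1 / 2) : ℝ) :=
    Real.rpow_le_rpow_of_exponent_le (by norm_num) (by linarith)
  refine h3.trans ?_
  rw [Real.rpow_neg (by norm_num : (0 : ℝ) ≤ 2), ← Real.sqrt_eq_rpow, ← one_div]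
  apply one_div_le_one_div_of_le (by norm_num)
  exact Real.le_sqrt_of_sq_le (by norm_num)

/-- one large coordinate, the others spread -/
lemma case_spread (P : Pk) (hB : B4 θ μ) {ι : Type} (S : Finset ι) (u : ι → ℝ) {x : ℝ}
    (hx : 0 < x) (hx1 : 1 / 2 ≤ x ^ 2) (hx2 : x ^ 2 ≤ (2 : ℝ) ^ (2 * θ - 1))
    (hu : ∀ i ∈ S, 0 < u i) (h1 : x ^ 2 + ∑ i ∈ S, u i ^ 2 = 1)
    (h2 : ∀ i ∈ S, u i ^ 2 ≤ 0.65 * (1 - x ^ 2)) :
    (2 : ℝ) ^ (θ - 1 / 2) < Lf (fun t => ph μ (x * t) * ∏ i ∈ S, ph μ (u i * t)) := by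
  have := hB.prob
  have F := P.fn θ μ hB
  set C := (2 : ℝ) ^ (θ - 1 / 2) with hC
  have hC0 : 0 < C := CC_pos θ
  have hpi := Real.pi_pos
  have hx3 := hx2.trans (CCsq_le hB.hi)
  have hx4 : x ^ 2 < 1 := lt_of_le_of_lt hx3 (by norm_num)
  have hy : 0.414 ≤ (1 - x ^ 2) / x ^ 2 := by
    rw [le_div_iff₀ (by positivity)]
    rw [le_div_iff₀ (by norm_num)] at hx3
    linarith
  have hy1 : (1 - x ^ 2) / x ^ 2 ≤ 1 := by
    rw [div_le_one (by positivity)]
    linarith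
  obtain ⟨ν, hν⟩ := exists_isLaw_prod hB.int S u
  obtain ⟨ν', hν'⟩ := (isLaw_ph hB.int x).mul hν
  have hd := P.iid P.num P.a1 P.hb P.e2 P.qq θ (ph μ) F ι S u x hx hx1 hx4 h1
    (fun i hi => ⟨hu i hi, h2 i hi⟩) hy hν'.ok.int
  have hE := P.e2 P.num θ (ph μ) F
  have hQ := P.qq P.num θ (ph μ) F
  have hr : 0 < 1 - x ^ 2 := by linarith
  have hsumw : ∑ i ∈ S, u i ^ 2 / (1 - x ^ 2) = 1 := by
    rw [← Finset.sum_div, show ∑ i ∈ S, u i ^ 2 = 1 - x ^ 2 by linarith]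
    field_simp
  have hne : S.Nonempty := by
    by_contra h
    rw [Finset.not_nonempty_iff_eq_empty] at h
    rw [h] at hsumw
    simp at hsumw
  have hlt : ∑ i ∈ S, u i ^ 2 / (1 - x ^ 2) * (Real.pi / 2 * C * √(1 + (1 - x ^ 2) / x ^ 2)) <
      x⁻¹ * ∫ t in Ioi (0 : ℝ), (1 - ph μ (x * t) * ∏ i ∈ S, ph μ (u i * t)) / t ^ 2 := by
    refine lt_of_lt_of_le ?_ hd
    refine Finset.sum_lt_sum_of_nonempty hne fun i hi => ?_
    have hui := hu i hi
    apply mul_lt_mul_of_pos_left _ (by positivity)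
    exact P.iis P.num θ hB.lo hB.hi _ _ _ _ _ _ hy hy1 (by positivity)
      (by rw [div_le_iff₀ hr]; exact h2 i hi) hQ.2.1 hQ.2.2.1 hQ.2.2.2 hE.2.1 hE.2.2
  rw [← Finset.sum_mul, hsumw, one_mul] at hlt
  have e1 : √(1 + (1 - x ^ 2) / x ^ 2) = x⁻¹ := by
    rw [show 1 + (1 - x ^ 2) / x ^ 2 = (x⁻¹) ^ 2 by field_simp; ring]
    exact Real.sqrt_sq (by positivity)
  rw [e1, ← Lf_eq_int P (fun t => ph μ (x * t) * ∏ i ∈ S, ph μ (u i * t))] at hlt
  have h5 : x⁻¹ * (Real.pi / 2 * C) <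
      x⁻¹ * (Real.pi / 2 * Lf (fun t => ph μ (x * t) * ∏ i ∈ S, ph μ (u i * t))) := by
    linarith
  have h6 := lt_of_mul_lt_mul_left h5 (by positivity)
  exact lt_of_mul_lt_mul_left h6 (by positivity)

/-- the main step, nonzero coordinates, unit vector -/
lemma key (P : Pk) (hB : B4 θ μ) {ι : Type} [DecidableEq ι] (S : Finset ι) (u : ι → ℝ)
    (hu : ∀ i ∈ S, 0 < u i) (h1 : ∑ i ∈ S, u i ^ 2 = 1) :
    (2 : ℝ) ^ (θ - 1 / 2) < Lf (fun t => ∏ i ∈ S, ph μ (u i * t)) ∨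
    ((2 : ℝ) ^ (θ - 1 / 2) ≤ Lf (fun t => ∏ i ∈ S, ph μ (u i * t)) ∧
      ∃ i ∈ S, ∃ j ∈ S, i ≠ j ∧ u i = 1 / √2 ∧ u j = 1 / √2) := by
  have hprob := hB.prob
  set C := (2 : ℝ) ^ (θ - 1 / 2) with hC
  have hC0 : 0 < C := CC_pos θ
  have hCsq : C ^ 2 = (2 : ℝ) ^ (2 * θ - 1) := sq_CC θ
  have hθ0 : 0 < θ := by have := hB.lo; linarith
  have hne : S.Nonempty := by
    by_contra h
    rw [Finset.not_nonempty_iff_eq_empty] at h
    rw [h] at h1
    simp at h1
  obtain ⟨i, hi, hmax⟩ := S.exists_max_image u hne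
  set a := u i with ha
  have ha0 : 0 < a := hu i hi
  have hsplit : ∑ k ∈ S, u k ^ 2 = a ^ 2 + ∑ k ∈ S.erase i, u k ^ 2 :=
    (Finset.add_sum_erase S _ hi).symm
  have hprod : (fun t => ∏ k ∈ S, ph μ (u k * t)) =
      fun t => ph μ (a * t) * ∏ k ∈ S.erase i, ph μ (u k * t) := by
    ext t
    exact (Finset.mul_prod_erase S (fun k => ph μ (u k * t)) hi).symm
  obtain ⟨ν1, hν1⟩ := exists_isLaw_prod hB.int (S.erase i) u
  have hmaxa : ∀ k ∈ S, u k ^ 2 ≤ a ^ 2 := by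
    intro k hk
    exact pow_le_pow_left₀ (hu k hk).le (hmax k hk) 2
  rcases lt_or_ge C a with hat | hat
  · left
    rw [hprod]
    have e1 := jensen4 hB hν1 ha0.le
    have e2 := hν1.le_Lf_cos a
    rw [abs_of_pos ha0] at e2
    have := le_max_left a (Lf (fun t => ∏ k ∈ S.erase i, ph μ (u k * t)))
    linarith
  rcases le_total (a ^ 2) (1 / 2) with hA | hA
  · -- all coordinates small
    have hcs := case_small P hB S u hu h1 (fun k hk => (hmaxa k hk).trans hA)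
    by_cases hex : ∃ k ∈ S, u k ^ 2 < 1 / 2
    · left
      exact hcs.2 hex
    · right
      refine ⟨hcs.1, ?_⟩
      push Not at hex
      have hall : ∀ k ∈ S, u k ^ 2 = 1 / 2 := fun k hk =>
        le_antisymm ((hmaxa k hk).trans hA) (hex k hk)
      have hval : ∀ k ∈ S, u k = 1 / √2 := by
        intro k hk
        have h3 := hall k hk
        rw [← Real.sqrt_sq (hu k hk).le, h3, Real.sqrt_div (by norm_num), Real.sqrt_one]
      have hcard : (S.card : ℝ) * (1 / 2) = 1 := by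
        have h5 := h1
        rw [Finset.sum_congr rfl hall, Finset.sum_const, nsmul_eq_mul] at h5
        exact h5
      have hcard2 : S.card = 2 := by
        have : (S.card : ℝ) = 2 := by linarith
        exact_mod_cast this
      obtain ⟨k, l, hkl, hS⟩ := Finset.card_eq_two.1 hcard2
      exact ⟨k, by simp [hS], l, by simp [hS], hkl, hval k (by simp [hS]), hval l (by simp [hS])⟩
  · have ha2 : a ^ 2 ≤ (2 : ℝ) ^ (2 * θ - 1) := by
      rw [← hCsq]
      exact pow_le_pow_left₀ ha0.le hat 2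
    have ha3 : a ^ 2 < 1 := lt_of_le_of_lt (ha2.trans (CCsq_le hB.hi)) (by norm_num)
    have hrest : ∑ k ∈ S.erase i, u k ^ 2 = 1 - a ^ 2 := by linarith
    have hne2 : (S.erase i).Nonempty := by
      by_contra h
      rw [Finset.not_nonempty_iff_eq_empty] at h
      rw [h] at hrest
      simp at hrest
      linarith
    obtain ⟨j, hj, hmaxj⟩ := (S.erase i).exists_max_image u hne2
    have hji : j ≠ i := Finset.ne_of_mem_erase hj
    have hjS : j ∈ S := Finset.mem_of_mem_erase hj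
    set b := u j with hb
    have hb0 : 0 < b := hu j hjS
    have hba : b ≤ a := hmax j hjS
    rcases le_total (b ^ 2) (0.65 * (1 - a ^ 2)) with hbv | hbv
    · left
      rw [hprod]
      refine case_spread P hB (S.erase i) u ha0 hA ha2
        (fun k hk => hu k (Finset.mem_of_mem_erase hk)) (by rw [hrest]; ring) ?_
      intro k hk
      refine le_trans ?_ hbv
      exact pow_le_pow_left₀ (hu k (Finset.mem_of_mem_erase hk)).le (hmaxj k hk) 2
    · set S2 := (S.erase i).erase j with hS2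
      have hsplit2 : ∑ k ∈ S.erase i, u k ^ 2 = b ^ 2 + ∑ k ∈ S2, u k ^ 2 :=
        (Finset.add_sum_erase (S.erase i) _ hj).symm
      have hprod2 : (fun t => ∏ k ∈ S, ph μ (u k * t)) =
          fun t => ph μ (a * t) * (ph μ (b * t) * ∏ k ∈ S2, ph μ (u k * t)) := by
        rw [hprod]
        ext t
        rw [← Finset.mul_prod_erase (S.erase i) (fun k => ph μ (u k * t)) hj]
      set R := ∑ k ∈ S2, u k ^ 2 with hR
      have hR0 : 0 ≤ R := Finset.sum_nonneg fun k _ => sq_nonneg _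
      have hnorm : a ^ 2 + b ^ 2 + R = 1 := by linarith
      have hv0 := vv_pos P hB.lo hB.hi
      have hm4 : ∫ y, y ^ 4 ∂μ ≤ 3 * (1 + vv θ) ^ 2 := by
        refine hB.m4.trans ?_
        unfold zz
        nlinarith [sq_nonneg (vv θ)]
      obtain ⟨ν, hν, hν4, hνm2, hνm4⟩ := P.law μ hB.prob hB.int4 _ hB.m2 hm4 ι S2 u
      have hN := P.near θ μ hB _ ν hν hν4 a b R hb0 hba hR0 hνm2 hνm4
      rw [hprod2]
      by_cases hcrit : R = 0 ∧ a = b
      · right
        obtain ⟨hR', hab⟩ := hcrit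
        have ha' : a ^ 2 = 1 / 2 := by
          rw [hR', ← hab] at hnorm
          linarith
        have ha'' : a = 1 / √2 := by
          rw [← Real.sqrt_sq ha0.le, ha', Real.sqrt_div (by norm_num), Real.sqrt_one]
        refine ⟨?_, i, hi, j, hjS, hji.symm, ha'', by rw [← hb, ← hab]; exact ha''⟩
        refine le_trans (le_of_eq ?_) hN
        rw [hR', ← hab]
        have e1 : (a ^ (1 / θ) + a ^ (1 / θ)) ^ θ = (2 : ℝ) ^ θ * a := by
          rw [← two_mul, Real.mul_rpow (by norm_num) (by positivity), ← Real.rpow_mul ha0.le,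
            one_div_mul_cancel hθ0.ne', Real.rpow_one]
        rw [e1, ha'', hC, Real.rpow_sub (by norm_num), ← Real.sqrt_eq_rpow]
        simp
        ring
      · left
        exact lt_of_lt_of_le (P.dd P.num θ a b R hB.lo hB.hi hb0 hba hR0 hnorm hA ha2 hbv hcrit) hN

/-- The abstract theorem for positive coordinates. -/
lemma ineq (P : Pk) (hB : B4 θ μ) {ι : Type} [DecidableEq ι] (S : Finset ι) (u : ι → ℝ)
    (hu : ∀ i ∈ S, 0 < u i) :
    (2 : ℝ) ^ (θ - 1 / 2) * √(∑ i ∈ S, u i ^ 2) ≤ Lf (fun t => ∏ i ∈ S, ph μ (u i * t)) := by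
  have hprob := hB.prob
  rcases S.eq_empty_or_nonempty with h | hne
  · subst h
    simp [Pool.Agent.Helper28.NO.Lf_one]
  · set σ := √(∑ i ∈ S, u i ^ 2) with hσ
    have hpos : 0 < ∑ i ∈ S, u i ^ 2 :=
      Finset.sum_pos (fun i hi => by have := hu i hi; positivity) hne
    have hσ0 : 0 < σ := Real.sqrt_pos.2 hpos
    have hσ2 : σ ^ 2 = ∑ i ∈ S, u i ^ 2 := Real.sq_sqrt hpos.le
    have hk := key P hB S (fun i => u i / σ) (fun i hi => div_pos (hu i hi) hσ0)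
      (by simp_rw [div_pow]; rw [← Finset.sum_div, hσ2]; field_simp)
    have hk2 : (2 : ℝ) ^ (θ - 1 / 2) ≤ Lf (fun t => ∏ i ∈ S, ph μ (u i / σ * t)) := by
      rcases hk with h | h
      · exact h.le
      · exact h.1
    have e : Lf (fun t => ∏ i ∈ S, ph μ (u i * t)) =
        σ * Lf (fun t => ∏ i ∈ S, ph μ (u i / σ * t)) := by
      rw [← Lf_scale (fun t => ∏ i ∈ S, ph μ (u i / σ * t)) hσ0.le (by simp [ph_zero])]
      congr 1
      ext t
      refine Finset.prod_congr rfl fun i _ => ?_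
      congr 1
      field_simp
    rw [e, mul_comm]
    exact mul_le_mul_of_nonneg_left hk2 hσ0.le

theorem goalMain (P : Pk) : GMain := by
  intro θ μ hB ι S u
  classical
  have hprob := hB.prob
  have e1 : (fun t => ∏ i ∈ S, ph μ (u i * t)) =
      fun t => ∏ i ∈ S.filter (fun i => u i ≠ 0), ph μ (|u i| * t) := by
    ext t
    rw [Finset.prod_filter_of_ne]
    · exact Finset.prod_congr rfl fun i _ => (ph_abs _ _).symm
    · intro i _ hi h0
      apply hi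
      rw [h0]
      simp [ph_zero]
  have e2 : ∑ i ∈ S, u i ^ 2 = ∑ i ∈ S.filter (fun i => u i ≠ 0), |u i| ^ 2 := by
    rw [Finset.sum_filter_of_ne]
    · exact Finset.sum_congr rfl fun i _ => (sq_abs _).symm
    · intro i _ hi h0
      apply hi
      rw [h0]
      simp
  rw [e1, e2]
  set S' := S.filter (fun i => u i ≠ 0) with hS'
  have hu : ∀ i ∈ S', 0 < |u i| := by
    intro i hi
    exact abs_pos.2 (Finset.mem_filter.1 hi).2
  refine ⟨ineq P hB S' _ hu, fun h1 h2 => ?_⟩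
  rcases key P hB S' _ hu h1 with h | h
  · exact absurd h2 h.ne'
  · obtain ⟨_, i, hi, j, hj, hij, h3, h4⟩ := h
    exact ⟨i, (Finset.mem_filter.1 hi).1, j, (Finset.mem_filter.1 hj).1, hij, h3, h4⟩

end Pool.Agent.Helper53.Pq
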